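import Mathlib

set_option autoImplicit false

open MeasureTheory Set Filter Topology
open scoped ENNReal NNReal

namespace Pool.Agent.Results.MP_5dad96_an.NoAlpha


/-- arc length (one-dimensional Hausdorff measure) on the boundary of `Ω`; the plane is `ℂ` -/
noncomputable def bdry (Ω : Set ℂ) : Measure ℂ := (Measure.hausdorffMeasure 1).restrict (frontier Ω)

/-- the gradient `(∂φ/∂x, ∂φ/∂y)` -/
noncomputable def grad (φ : ℂ → ℝ) (z : ℂ) : ℂ := ⟨fderiv ℝ φ z 1, fderiv ℝ φ z Complex.I⟩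

/-- squared `L²(μ)` norm -/
noncomputable def nsq {F : Type} [ENorm F] (μ : Measure ℂ) (f : ℂ → F) : ℝ≥0∞ := ∫⁻ z, ‖f z‖ₑ ^ 2 ∂μ

/-- triples of functions; the triples of interest are `(u, ∇u, trace of u)` with `u ∈ H¹(Ω)` -/
def Triple : Type := (ℂ → ℝ) × (ℂ → ℂ) × (ℂ → ℝ)

noncomputable instance : AddCommGroup Triple :=
  inferInstanceAs (AddCommGroup ((ℂ → ℝ) × (ℂ → ℂ) × (ℂ → ℝ)))

noncomputable instance : Module ℝ Triple :=
  inferInstanceAs (Module ℝ ((ℂ → ℝ) × (ℂ → ℂ) × (ℂ → ℝ)))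

/-- `H¹(Ω)`, as the set of triples `(u, G, t)` of square integrable functions which are limits, in
`L²(Ω) × L²(Ω; ℝ²) × L²(∂Ω)`, of triples `(φ, ∇φ, φ)` with `φ` of class `C¹` on the plane. For a bounded
open set with Lipschitz boundary this means `u ∈ H¹(Ω)`, `G = ∇u` and `t = trace of u` (almost
everywhere), by density of smooth functions in `H¹(Ω)` and continuity of the trace. -/
def H1 (Ω : Set ℂ) : Set Triple :=
  {w | MemLp w.1 2 (volume.restrict Ω) ∧ MemLp w.2.1 2 (volume.restrict Ω) ∧ MemLp w.2.2 2 (bdry Ω) ∧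
    ∀ ε : ℝ≥0∞, 0 < ε → ∃ φ : ℂ → ℝ, ContDiff ℝ 1 φ ∧
      nsq (volume.restrict Ω) (fun z => w.1 z - φ z) < ε ∧
      nsq (volume.restrict Ω) (fun z => w.2.1 z - grad φ z) < ε ∧
      nsq (bdry Ω) (fun z => w.2.2 z - φ z) < ε}

/-- Rayleigh quotient `(∫_Ω |∇u|² + β ∫_∂Ω u²) / ∫_Ω u²` -/
noncomputable def rayleigh (β : ℝ) (Ω : Set ℂ) (w : Triple) : ℝ≥0∞ :=
  (nsq (volume.restrict Ω) w.2.1 + ENNReal.ofReal β * nsq (bdry Ω) w.2.2) / nsq (volume.restrict Ω) w.1

/-- the `k`-th Robin eigenvalue by the min-max formula: infimum over `k`-dimensional spaces of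
`H¹(Ω)` functions of the supremum of the Rayleigh quotient -/
noncomputable def nu (β : ℝ) (Ω : Set ℂ) (k : ℕ) : ℝ≥0∞ :=
  ⨅ (V : Submodule ℝ Triple) (_ : Module.finrank ℝ V = k ∧
    ∀ w ∈ V, w ∈ H1 Ω ∧ (w ≠ 0 → nsq (volume.restrict Ω) w.1 ≠ 0)),
    ⨆ (w : Triple) (_ : w ∈ V ∧ w ≠ 0), rayleigh β Ω w

/-- near each boundary point, `Ω` is the set above the graph of a Lipschitz function, in suitable
Cartesian coordinates -/
def HasLipschitzBoundary (Ω : Set ℂ) : Prop :=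
  ∀ p ∈ frontier Ω, ∃ (e : ℂ ≃ₗᵢ[ℝ] ℂ) (g : ℝ → ℝ) (K : ℝ≥0) (U : Set ℂ),
    LipschitzWith K g ∧ IsOpen U ∧ p ∈ U ∧ ∀ z ∈ U, (z ∈ Ω ↔ g (e z).re < (e z).im)

/-- bounded open sets with Lipschitz boundary -/
def IsLipschitzDomain (Ω : Set ℂ) : Prop :=
  IsOpen Ω ∧ Bornology.IsBounded Ω ∧ HasLipschitzBoundary Ω

/-- the disk of area `A` -/
noncomputable def disk (A : ℝ) : Set ℂ := Metric.ball 0 (√(A / Real.pi))

/-- the ratio of the first two Robin eigenvalues, for the parameter `α` -/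
noncomputable def ratio (α : ℝ) (Ω : Set ℂ) : ℝ :=
  (nu (α / (1 - α)) Ω 2).toReal / (nu (α / (1 - α)) Ω 1).toReal

/-- squares of lintegrals -/
lemma sq_lintegral_le {α : Type*} [MeasurableSpace α] (μ : Measure α) (g : α → ℝ≥0∞)
    (hg : AEMeasurable g μ) : (∫⁻ x, g x ∂μ) ^ 2 ≤ μ univ * ∫⁻ x, g x ^ 2 ∂μ := by
  have h := ENNReal.lintegral_mul_le_Lp_mul_Lq μ (p := 2) (q := 2)
    ⟨by norm_num, by norm_num, by norm_num⟩ (f := fun _ => (1 : ℝ≥0∞)) (g := g) aemeasurable_const hg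
  simp only [Pi.mul_apply, one_mul, ENNReal.one_rpow, lintegral_const] at h
  have h2 : (∫⁻ x, g x ∂μ) ^ (2:ℝ) ≤ ((μ univ) ^ (1 / (2:ℝ)) * (∫⁻ a, g a ^ (2:ℝ) ∂μ) ^ (1 / (2:ℝ))) ^ (2:ℝ) := by
    gcongr
  rw [ENNReal.mul_rpow_of_nonneg _ _ (by norm_num), ← ENNReal.rpow_mul, ← ENNReal.rpow_mul] at h2
  norm_num at h2
  exact h2

lemma lintegral_complex (g : ℂ → ℝ≥0∞) (hg : Measurable g) :
    ∫⁻ z, g z = ∫⁻ x : ℝ, ∫⁻ y : ℝ, g ⟨x, y⟩ := by
  have h := Complex.volume_preserving_equiv_real_prod.symm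
  rw [← h.lintegral_comp hg]
  rw [show (volume : Measure (ℝ × ℝ)) = volume.prod volume from rfl, lintegral_prod]
  · rfl
  · exact (hg.comp (Complex.measurableEquivRealProd.symm.measurable)).aemeasurable

/-- the norm of an `L²` function, as a lower integral -/
lemma lp_norm_sq {α F : Type*} [MeasurableSpace α] [NormedAddCommGroup F] {μ : Measure α}
    (w : Lp F 2 μ) : ENNReal.ofReal (‖w‖ ^ 2) = ∫⁻ x, ‖w x‖ₑ ^ 2 ∂μ := by
  have h2 : eLpNorm w 2 μ = (∫⁻ x, ‖w x‖ₑ ^ 2 ∂μ) ^ (1 / 2 : ℝ) := by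
    have := eLpNorm_nnreal_eq_lintegral (f := (w : α → F)) (μ := μ) (p := 2) (by norm_num)
    simpa using this
  rw [ENNReal.ofReal_pow (norm_nonneg _), ofReal_norm, Lp.enorm_def, h2,
    ← ENNReal.rpow_natCast, ← ENNReal.rpow_mul]
  norm_num

lemma one_dim (f f' : ℝ → ℝ) (hf : ∀ x, HasDerivAt f (f' x) x) (hc : Continuous f') (s t : ℝ) :
    ‖f t - f s‖ₑ ^ 2 ≤ ENNReal.ofReal |t - s| * ∫⁻ r in uIoc s t, ‖f' r‖ₑ ^ 2 := by
  have h1 : ∫ y in s..t, f' y = f t - f s :=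
    intervalIntegral.integral_eq_sub_of_hasDerivAt (fun x _ => hf x) (hc.intervalIntegrable _ _)
  have h2 : ‖f t - f s‖ₑ ≤ ∫⁻ r in uIoc s t, ‖f' r‖ₑ := by
    have h3 : ‖f t - f s‖ₑ = ‖∫ r in uIoc s t, f' r‖ₑ := by
      rw [← h1]
      have := intervalIntegral.abs_intervalIntegral_eq f' s t volume
      rw [← ofReal_norm, ← ofReal_norm, Real.norm_eq_abs, Real.norm_eq_abs, this]
    rw [h3]
    exact enorm_integral_le_lintegral_enorm _
  calc ‖f t - f s‖ₑ ^ 2 ≤ (∫⁻ r in uIoc s t, ‖f' r‖ₑ) ^ 2 := by gcongr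
    _ ≤ (volume.restrict (uIoc s t)) univ * ∫⁻ r in uIoc s t, ‖f' r‖ₑ ^ 2 :=
        sq_lintegral_le _ _ hc.enorm.aemeasurable
    _ = _ := by
        congr 1
        rw [Measure.restrict_apply_univ, uIoc, Real.volume_Ioc]
        congr 1
        rw [max_sub_min_eq_abs']
        rw [abs_sub_comm]

lemma add_sq_le' (x y : ℝ≥0∞) : (x + y) ^ 2 ≤ 2 * x ^ 2 + 2 * y ^ 2 := by
  have h := ENNReal.rpow_add_le_mul_rpow_add_rpow x y (p := 2) (by norm_num)
  norm_num at h
  rw [mul_add] at h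
  exact h

/-- one dimensional trace inequality on an interval of length at most `W` -/
lemma one_dim_trace (f f' : ℝ → ℝ) (hf : ∀ x, HasDerivAt f (f' x) x) (hc : Continuous f')
    (a b W : ℝ) (hW : b - a ≤ W) :
    ∫⁻ y in Ioo a b, ‖f y‖ₑ ^ 2 ≤
      ENNReal.ofReal (2 * W) * ‖f a‖ₑ ^ 2 + ENNReal.ofReal (2 * W ^ 2) * ∫⁻ y in Ioo a b, ‖f' y‖ₑ ^ 2 := by
  rcases le_or_gt b a with hab | hab
  · simp [Ioo_eq_empty (not_lt.mpr hab)]
  have hW0 : 0 < W := by linarith
  set I := ∫⁻ y in Ioo a b, ‖f' y‖ₑ ^ 2 with hI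
  have key : ∀ y ∈ Ioo a b, ‖f y‖ₑ ^ 2 ≤ 2 * ‖f a‖ₑ ^ 2 + 2 * (ENNReal.ofReal W * I) := by
    intro y hy
    have h1 : ‖f y - f a‖ₑ ^ 2 ≤ ENNReal.ofReal W * I := by
      refine (one_dim f f' hf hc a y).trans ?_
      gcongr
      · rw [abs_of_pos (by linarith [hy.1])]; linarith [hy.2]
      · rw [hI]
        refine lintegral_mono_set ?_
        rw [uIoc_of_le hy.1.le]
        exact fun r hr => ⟨hr.1, lt_of_le_of_lt hr.2 hy.2⟩
    have h2 : ‖f y‖ₑ ≤ ‖f a‖ₑ + ‖f y - f a‖ₑ := by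
      have := enorm_add_le (f a) (f y - f a)
      simpa using this
    calc ‖f y‖ₑ ^ 2 ≤ (‖f a‖ₑ + ‖f y - f a‖ₑ) ^ 2 := by gcongr
      _ ≤ 2 * ‖f a‖ₑ ^ 2 + 2 * ‖f y - f a‖ₑ ^ 2 := add_sq_le' _ _
      _ ≤ _ := by gcongr
  calc ∫⁻ y in Ioo a b, ‖f y‖ₑ ^ 2 ≤ ∫⁻ y in Ioo a b, (2 * ‖f a‖ₑ ^ 2 + 2 * (ENNReal.ofReal W * I)) :=
        setLIntegral_mono' measurableSet_Ioo key
    _ = (2 * ‖f a‖ₑ ^ 2 + 2 * (ENNReal.ofReal W * I)) * ENNReal.ofReal (b - a) := by
        rw [setLIntegral_const, Real.volume_Ioo]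
    _ ≤ (2 * ‖f a‖ₑ ^ 2 + 2 * (ENNReal.ofReal W * I)) * ENNReal.ofReal W := by gcongr
    _ = _ := by
        rw [show (2 * W) = 2 * W from rfl, ENNReal.ofReal_mul (by norm_num), ENNReal.ofReal_mul (by norm_num),
          ENNReal.ofReal_pow hW0.le]
        simp only [ENNReal.ofReal_ofNat]
        ring

/-- the Hausdorff measure dominates the projection to the real axis -/
lemma proj_le (S : Set ℂ) (hS : MeasurableSet S) (γ : ℝ → ℝ) (hγ : Measurable γ) (a b : ℝ)
    (hmem : ∀ x ∈ Ioo a b, (⟨x, γ x⟩ : ℂ) ∈ S) (h : ℂ → ℝ≥0∞) (hh : Measurable h) :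
    ∫⁻ x in Ioo a b, h ⟨x, γ x⟩ ≤ ∫⁻ z in S, h z ∂(Measure.hausdorffMeasure 1) := by
  set G : Set ℂ := {z | z ∈ S ∧ z.re ∈ Ioo a b ∧ z.im = γ z.re} with hG
  have hGm : MeasurableSet G := by
    refine hS.inter (MeasurableSet.inter (Complex.measurable_re measurableSet_Ioo) ?_)
    exact measurableSet_eq_fun Complex.measurable_im (hγ.comp Complex.measurable_re)
  have hGS : G ⊆ S := fun z hz => hz.1
  have hmeas : Measurable fun x : ℝ => h ⟨x, γ x⟩ := by
    refine hh.comp ?_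
    exact Complex.measurableEquivRealProd.symm.measurable.comp (measurable_id.prodMk hγ)
  have hle : (volume.restrict (Ioo a b) : Measure ℝ) ≤
      ((Measure.hausdorffMeasure 1 : Measure ℂ).restrict G).map Complex.re := by
    refine Measure.le_iff.2 fun B hB => ?_
    rw [Measure.restrict_apply hB, Measure.map_apply Complex.measurable_re hB,
      Measure.restrict_apply (Complex.measurable_re hB)]
    have him : B ∩ Ioo a b = Complex.re '' (Complex.re ⁻¹' B ∩ G) := by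
      ext x
      constructor
      · rintro ⟨hx, hx2⟩
        exact ⟨⟨x, γ x⟩, ⟨hx, hmem x hx2, hx2, rfl⟩, rfl⟩
      · rintro ⟨z, ⟨hz, hz2⟩, rfl⟩
        exact ⟨hz, hz2.2.1⟩
    rw [him, ← hausdorffMeasure_real]
    have hl : LipschitzWith 1 Complex.re := by
      refine LipschitzWith.of_dist_le_mul fun x y => ?_
      rw [NNReal.coe_one, one_mul, Complex.dist_eq, Real.dist_eq, ← Complex.sub_re]
      exact Complex.abs_re_le_norm _
    have := hl.hausdorffMeasure_image_le (d := 1) zero_le_one (Complex.re ⁻¹' B ∩ G)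
    simpa using this
  calc ∫⁻ x in Ioo a b, h ⟨x, γ x⟩ ≤
        ∫⁻ x, h ⟨x, γ x⟩ ∂(((Measure.hausdorffMeasure 1 : Measure ℂ).restrict G).map Complex.re) :=
        lintegral_mono' hle le_rfl
    _ = ∫⁻ z in G, h ⟨z.re, γ z.re⟩ ∂(Measure.hausdorffMeasure 1) :=
        lintegral_map hmeas Complex.measurable_re
    _ = ∫⁻ z in G, h z ∂(Measure.hausdorffMeasure 1) := by
        refine setLIntegral_congr_fun hGm fun z hz => ?_
        have : (⟨z.re, γ z.re⟩ : ℂ) = z := by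
          apply Complex.ext
          · rfl
          · exact hz.2.2.symm
        simp only [this]
    _ ≤ _ := lintegral_mono_set hGS

/-- the region between two graphs -/
def region (a b : ℝ) (γ δ : ℝ → ℝ) : Set ℂ := {z | z.re ∈ Ioo a b ∧ z.im ∈ Ioo (γ z.re) (δ z.re)}

lemma region_meas (a b : ℝ) (γ δ : ℝ → ℝ) (hγ : Measurable γ) (hδ : Measurable δ) :
    MeasurableSet (region a b γ δ) := by
  refine (Complex.measurable_re measurableSet_Ioo).inter ?_
  exact (measurableSet_lt (hγ.comp Complex.measurable_re) Complex.measurable_im).inter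
    (measurableSet_lt Complex.measurable_im (hδ.comp Complex.measurable_re))

lemma lintegral_region (a b : ℝ) (γ δ : ℝ → ℝ) (hγ : Measurable γ) (hδ : Measurable δ)
    (g : ℂ → ℝ≥0∞) (hg : Measurable g) :
    ∫⁻ z in region a b γ δ, g z = ∫⁻ x in Ioo a b, ∫⁻ y in Ioo (γ x) (δ x), g ⟨x, y⟩ := by
  have hm := region_meas a b γ δ hγ hδ
  rw [← lintegral_indicator hm, lintegral_complex _ (hg.indicator hm),
    ← lintegral_indicator measurableSet_Ioo]
  congr 1
  ext x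
  by_cases hx : x ∈ Ioo a b
  · rw [indicator_of_mem hx, ← lintegral_indicator measurableSet_Ioo]
    congr 1
    ext y
    by_cases hy : y ∈ Ioo (γ x) (δ x)
    · rw [indicator_of_mem hy, indicator_of_mem]
      exact ⟨hx, hy⟩
    · rw [indicator_of_notMem hy, indicator_of_notMem]
      exact fun h => hy h.2
  · rw [indicator_of_notMem hx]
    have : ∀ y : ℝ, (region a b γ δ).indicator g ⟨x, y⟩ = 0 := by
      intro y
      rw [indicator_of_notMem]
      exact fun h => hx h.1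
    simp [this]

lemma hasDerivAt_vert (φ : ℂ → ℝ) (hφ : ContDiff ℝ 1 φ) (x : ℝ) (y : ℝ) :
    HasDerivAt (fun y : ℝ => φ ⟨x, y⟩) (fderiv ℝ φ ⟨x, y⟩ Complex.I) y := by
  have h1 : HasFDerivAt φ (fderiv ℝ φ ⟨x, y⟩) ⟨x, y⟩ :=
    (hφ.differentiable (by norm_num) _).hasFDerivAt
  have h2 : HasDerivAt (fun y : ℝ => (⟨x, y⟩ : ℂ)) Complex.I y := by
    have : (fun y : ℝ => (⟨x, y⟩ : ℂ)) = fun y : ℝ => (x : ℂ) + (y : ℂ) * Complex.I := by
      ext y
      rw [Complex.mk_eq_add_mul_I]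
    rw [this]
    have h3 : HasDerivAt (fun y : ℝ => (y : ℂ)) 1 y := Complex.ofRealCLM.hasDerivAt
    simpa using (h3.mul_const Complex.I).const_add (x : ℂ)
  exact h1.comp_hasDerivAt y h2

lemma hasDerivAt_horiz (φ : ℂ → ℝ) (hφ : ContDiff ℝ 1 φ) (x : ℝ) (y : ℝ) :
    HasDerivAt (fun x : ℝ => φ ⟨x, y⟩) (fderiv ℝ φ ⟨x, y⟩ 1) x := by
  have h1 : HasFDerivAt φ (fderiv ℝ φ ⟨x, y⟩) ⟨x, y⟩ :=
    (hφ.differentiable (by norm_num) _).hasFDerivAt
  have h2 : HasDerivAt (fun x : ℝ => (⟨x, y⟩ : ℂ)) 1 x := by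
    have : (fun x : ℝ => (⟨x, y⟩ : ℂ)) = fun x : ℝ => (x : ℂ) + (y : ℂ) * Complex.I := by
      ext y
      rw [Complex.mk_eq_add_mul_I]
    rw [this]
    have h3 : HasDerivAt (fun y : ℝ => (y : ℂ)) 1 x := Complex.ofRealCLM.hasDerivAt
    simpa using h3.add_const ((y : ℂ) * Complex.I)
  exact h1.comp_hasDerivAt x h2

lemma cont_fderiv_apply (φ : ℂ → ℝ) (hφ : ContDiff ℝ 1 φ) (v : ℂ) :
    Continuous fun z => fderiv ℝ φ z v := by
  have := hφ.continuous_fderiv (by norm_num)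
  fun_prop

lemma cont_mk_right (x : ℝ) : Continuous fun y : ℝ => (⟨x, y⟩ : ℂ) := by
  have : (fun y : ℝ => (⟨x, y⟩ : ℂ)) = fun y : ℝ => (x : ℂ) + (y : ℂ) * Complex.I := by
    ext y
    rw [Complex.mk_eq_add_mul_I]
  rw [this]; fun_prop

lemma cont_mk_left (y : ℝ) : Continuous fun x : ℝ => (⟨x, y⟩ : ℂ) := by
  have : (fun x : ℝ => (⟨x, y⟩ : ℂ)) = fun x : ℝ => (x : ℂ) + (y : ℂ) * Complex.I := by
    ext y
    rw [Complex.mk_eq_add_mul_I]
  rw [this]; fun_prop

lemma meas_mk : Measurable fun p : ℝ × ℝ => (⟨p.1, p.2⟩ : ℂ) :=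
  Complex.measurableEquivRealProd.symm.measurable

lemma enorm_apply_I (φ : ℂ → ℝ) (z : ℂ) : ‖fderiv ℝ φ z Complex.I‖ₑ ≤ ‖grad φ z‖ₑ := by
  rw [← ofReal_norm, ← ofReal_norm]
  exact ENNReal.ofReal_le_ofReal (Complex.abs_im_le_norm (grad φ z))

lemma enorm_apply_one (φ : ℂ → ℝ) (z : ℂ) : ‖fderiv ℝ φ z 1‖ₑ ≤ ‖grad φ z‖ₑ := by
  rw [← ofReal_norm, ← ofReal_norm]
  exact ENNReal.ofReal_le_ofReal (Complex.abs_re_le_norm (grad φ z))

lemma cont_grad (φ : ℂ → ℝ) (hφ : ContDiff ℝ 1 φ) : Continuous (grad φ) := by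
  have h1 := cont_fderiv_apply φ hφ 1
  have h2 := cont_fderiv_apply φ hφ Complex.I
  have : grad φ = fun z => ((fderiv ℝ φ z 1 : ℝ) : ℂ) + ((fderiv ℝ φ z Complex.I : ℝ) : ℂ) * Complex.I := by
    ext z
    rw [grad, Complex.mk_eq_add_mul_I]
  rw [this]
  fun_prop

lemma strip (φ : ℂ → ℝ) (hφ : ContDiff ℝ 1 φ) (a b : ℝ) (γ δ : ℝ → ℝ) (hγ : Measurable γ)
    (hδ : Measurable δ) (W : ℝ) (hW : ∀ x ∈ Ioo a b, δ x - γ x ≤ W) (S : Set ℂ)
    (hS : MeasurableSet S) (hmem : ∀ x ∈ Ioo a b, (⟨x, γ x⟩ : ℂ) ∈ S) :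
    ∫⁻ z in region a b γ δ, ‖φ z‖ₑ ^ 2 ≤
      ENNReal.ofReal (2 * W) * ∫⁻ z in S, ‖φ z‖ₑ ^ 2 ∂(Measure.hausdorffMeasure 1) +
      ENNReal.ofReal (2 * W ^ 2) * ∫⁻ z in region a b γ δ, ‖grad φ z‖ₑ ^ 2 := by
  have hm1 : Measurable fun z => ‖φ z‖ₑ ^ 2 := (hφ.continuous.enorm.measurable).pow_const 2
  have hm2 : Measurable fun z => ‖grad φ z‖ₑ ^ 2 :=
    ((cont_grad φ hφ).enorm.measurable).pow_const 2
  rw [lintegral_region a b γ δ hγ hδ _ hm1, lintegral_region a b γ δ hγ hδ _ hm2]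
  have hgm : Measurable fun x : ℝ => ‖φ ⟨x, γ x⟩‖ₑ ^ 2 := by
    refine hm1.comp ?_
    exact Complex.measurableEquivRealProd.symm.measurable.comp (measurable_id.prodMk hγ)
  calc ∫⁻ x in Ioo a b, ∫⁻ y in Ioo (γ x) (δ x), ‖φ ⟨x, y⟩‖ₑ ^ 2
      ≤ ∫⁻ x in Ioo a b, (ENNReal.ofReal (2 * W) * ‖φ ⟨x, γ x⟩‖ₑ ^ 2 +
          ENNReal.ofReal (2 * W ^ 2) * ∫⁻ y in Ioo (γ x) (δ x), ‖grad φ ⟨x, y⟩‖ₑ ^ 2) := by
        refine setLIntegral_mono' measurableSet_Ioo fun x hx => ?_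
        refine (one_dim_trace (fun y => φ ⟨x, y⟩) (fun y => fderiv ℝ φ ⟨x, y⟩ Complex.I)
          (hasDerivAt_vert φ hφ x) ((cont_fderiv_apply φ hφ _).comp (cont_mk_right x)) _ _ W (hW x hx)).trans ?_
        gcongr with y
        exact enorm_apply_I _ _
    _ = ENNReal.ofReal (2 * W) * (∫⁻ x in Ioo a b, ‖φ ⟨x, γ x⟩‖ₑ ^ 2) +
          ENNReal.ofReal (2 * W ^ 2) * ∫⁻ x in Ioo a b, ∫⁻ y in Ioo (γ x) (δ x), ‖grad φ ⟨x, y⟩‖ₑ ^ 2 := by
        rw [lintegral_add_left (hgm.const_mul _), lintegral_const_mul _ hgm,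
          lintegral_const_mul' _ _ ENNReal.ofReal_ne_top]
    _ ≤ _ := by
        gcongr
        exact proj_le S hS γ hγ a b hmem _ hm1

/-- the open square of side `l` -/
def sq (l : ℝ) : Set ℂ := region 0 l (fun _ => 0) (fun _ => l)

lemma sq_meas (l : ℝ) : MeasurableSet (sq l) :=
  region_meas _ _ _ _ measurable_const measurable_const

lemma vol_sq (l : ℝ) (hl : 0 ≤ l) : volume (sq l) = ENNReal.ofReal (l ^ 2) := by
  have h := lintegral_region 0 l (fun _ => 0) (fun _ => l) measurable_const measurable_const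
    (fun _ => 1) measurable_const
  simp only [lintegral_const, one_mul, Measure.restrict_apply_univ, Real.volume_Ioo, sub_zero] at h
  rw [sq, h, ENNReal.ofReal_pow hl, pow_two]

lemma sq_subset (l : ℝ) : sq l ⊆ Metric.closedBall 0 (2 * l) := by
  intro z hz
  rw [mem_closedBall_zero_iff]
  have h := Complex.norm_le_abs_re_add_abs_im z
  rw [abs_of_pos hz.1.1, abs_of_pos hz.2.1] at h
  linarith [hz.1.2, hz.2.2]

lemma integrableOn_cont {f : ℂ → ℝ} (hf : Continuous f) {Q : Set ℂ} {r : ℝ}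
    (hQ : Q ⊆ Metric.closedBall 0 r) : IntegrableOn f Q :=
  (hf.continuousOn.integrableOn_compact (isCompact_closedBall 0 r)).mono_set hQ

/-- Poincare inequality on the square -/
lemma poincare (φ : ℂ → ℝ) (hφ : ContDiff ℝ 1 φ) (l : ℝ) (hl : 0 < l) :
    ENNReal.ofReal (2 * l ^ 2) * ∫⁻ z in sq l, ‖φ z‖ₑ ^ 2 ≤
      ENNReal.ofReal (4 * l ^ 4) * (∫⁻ z in sq l, ‖grad φ z‖ₑ ^ 2) +
      ENNReal.ofReal (2 * (∫ z in sq l, φ z) ^ 2) := by
  set G := ∫⁻ z in sq l, ‖grad φ z‖ₑ ^ 2 with hG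
  have hm2 : Measurable fun z => ‖grad φ z‖ₑ ^ 2 :=
    ((cont_grad φ hφ).enorm.measurable).pow_const 2
  have hm1 : Measurable fun z => ‖φ z‖ₑ ^ 2 := (hφ.continuous.enorm.measurable).pow_const 2
  have hi1 : IntegrableOn φ (sq l) := integrableOn_cont hφ.continuous (sq_subset l)
  have hi2 : IntegrableOn (fun z => φ z ^ 2) (sq l) :=
    integrableOn_cont (hφ.continuous.pow 2) (sq_subset l)
  have hvol : (volume.restrict (sq l) : Measure ℂ) univ = ENNReal.ofReal (l ^ 2) := by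
    rw [Measure.restrict_apply_univ, vol_sq l hl.le]
  have : IsFiniteMeasure (volume.restrict (sq l) : Measure ℂ) :=
    ⟨by rw [hvol]; exact ENNReal.ofReal_lt_top⟩
  have hvr : (volume.restrict (sq l) : Measure ℂ).real univ = l ^ 2 := by
    rw [Measure.real, hvol, ENNReal.toReal_ofReal (by positivity)]
  -- the two one-variable energies
  let A : ℝ → ℝ≥0∞ := fun y => ∫⁻ x in Ioo 0 l, ‖grad φ ⟨x, y⟩‖ₑ ^ 2
  let B : ℝ → ℝ≥0∞ := fun x => ∫⁻ y in Ioo 0 l, ‖grad φ ⟨x, y⟩‖ₑ ^ 2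
  have hAm : Measurable A := by
    have : Measurable (Function.uncurry fun (y x : ℝ) => ‖grad φ ⟨x, y⟩‖ₑ ^ 2) :=
      hm2.comp (meas_mk.comp measurable_swap)
    exact this.lintegral_prod_right'
  have hBm : Measurable B := by
    have : Measurable (Function.uncurry fun (x y : ℝ) => ‖grad φ ⟨x, y⟩‖ₑ ^ 2) :=
      hm2.comp meas_mk
    exact this.lintegral_prod_right'
  have hG1 : G = ∫⁻ x in Ioo 0 l, B x :=
    lintegral_region 0 l _ _ measurable_const measurable_const _ hm2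
  have hG2 : G = ∫⁻ y in Ioo 0 l, A y := by
    rw [hG1]
    exact lintegral_lintegral_swap (hm2.comp meas_mk).aemeasurable
  have hAQ : ∫⁻ z in sq l, A z.im = ENNReal.ofReal l * G := by
    have := lintegral_region 0 l (fun _ => 0) (fun _ => l) measurable_const measurable_const
      (fun z => A z.im) (hAm.comp Complex.measurable_im)
    simp only at this
    rw [sq, this, ← hG2, setLIntegral_const, Real.volume_Ioo, sub_zero, mul_comm]
  have hBQ : ∫⁻ z in sq l, B z.re = ENNReal.ofReal l * G := by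
    have := lintegral_region 0 l (fun _ => 0) (fun _ => l) measurable_const measurable_const
      (fun z => B z.re) (hBm.comp Complex.measurable_re)
    simp only [setLIntegral_const, Real.volume_Ioo, sub_zero] at this
    rw [sq, this, lintegral_mul_const _ hBm, ← hG1, mul_comm]
  -- pointwise bound
  have hpt : ∀ z ∈ sq l, ∀ z' ∈ sq l, ‖φ z - φ z'‖ₑ ^ 2 ≤
      2 * (ENNReal.ofReal l * A z.im) + 2 * (ENNReal.ofReal l * B z'.re) := by
    intro z hz z' hz'
    have e1 : ‖φ ⟨z.re, z.im⟩ - φ ⟨z'.re, z.im⟩‖ₑ ^ 2 ≤ ENNReal.ofReal l * A z.im := by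
      refine (one_dim (fun x => φ ⟨x, z.im⟩) (fun x => fderiv ℝ φ ⟨x, z.im⟩ 1)
        (fun x => hasDerivAt_horiz φ hφ x z.im)
        ((cont_fderiv_apply φ hφ _).comp (cont_mk_left z.im)) z'.re z.re).trans ?_
      gcongr
      · rw [abs_le]; constructor <;> linarith [hz.1.1, hz.1.2, hz'.1.1, hz'.1.2]
      · refine (lintegral_mono_set ?_).trans (lintegral_mono fun x => ?_)
        · intro r hr
          rw [mem_uIoc] at hr
          rcases hr with hr | hr
          · exact ⟨hz'.1.1.trans hr.1, lt_of_le_of_lt hr.2 hz.1.2⟩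
          · exact ⟨hz.1.1.trans hr.1, lt_of_le_of_lt hr.2 hz'.1.2⟩
        · have := enorm_apply_one φ ⟨x, z.im⟩
          gcongr
    have e2 : ‖φ ⟨z'.re, z.im⟩ - φ ⟨z'.re, z'.im⟩‖ₑ ^ 2 ≤ ENNReal.ofReal l * B z'.re := by
      refine (one_dim (fun y => φ ⟨z'.re, y⟩) (fun y => fderiv ℝ φ ⟨z'.re, y⟩ Complex.I)
        (fun y => hasDerivAt_vert φ hφ z'.re y)
        ((cont_fderiv_apply φ hφ _).comp (cont_mk_right z'.re)) z'.im z.im).trans ?_
      gcongr
      · rw [abs_le]; constructor <;> linarith [hz.2.1, hz.2.2, hz'.2.1, hz'.2.2]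
      · refine (lintegral_mono_set ?_).trans (lintegral_mono fun y => ?_)
        · intro r hr
          rw [mem_uIoc] at hr
          rcases hr with hr | hr
          · exact ⟨hz'.2.1.trans hr.1, lt_of_le_of_lt hr.2 hz.2.2⟩
          · exact ⟨hz.2.1.trans hr.1, lt_of_le_of_lt hr.2 hz'.2.2⟩
        · have := enorm_apply_I φ ⟨z'.re, y⟩
          gcongr
    have e3 : φ z - φ z' = (φ ⟨z.re, z.im⟩ - φ ⟨z'.re, z.im⟩) +
        (φ ⟨z'.re, z.im⟩ - φ ⟨z'.re, z'.im⟩) := by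
      rw [Complex.eta, Complex.eta]; ring
    rw [e3]
    calc _ ≤ (‖φ ⟨z.re, z.im⟩ - φ ⟨z'.re, z.im⟩‖ₑ + ‖φ ⟨z'.re, z.im⟩ - φ ⟨z'.re, z'.im⟩‖ₑ) ^ 2 := by
          gcongr; exact enorm_add_le _ _
      _ ≤ _ := add_sq_le' _ _
      _ ≤ _ := by gcongr
  have hup : ∫⁻ z in sq l, ∫⁻ z' in sq l, ‖φ z - φ z'‖ₑ ^ 2 ≤ ENNReal.ofReal (4 * l ^ 4) * G := by
    calc ∫⁻ z in sq l, ∫⁻ z' in sq l, ‖φ z - φ z'‖ₑ ^ 2
        ≤ ∫⁻ z in sq l, ∫⁻ z' in sq l, (2 * (ENNReal.ofReal l * A z.im) +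
            2 * (ENNReal.ofReal l * B z'.re)) :=
          setLIntegral_mono' (sq_meas l) fun z hz => setLIntegral_mono' (sq_meas l) fun z' hz' =>
            hpt z hz z' hz'
      _ = ∫⁻ z in sq l, (2 * (ENNReal.ofReal l * A z.im) * ENNReal.ofReal (l ^ 2) +
            2 * (ENNReal.ofReal l * (ENNReal.ofReal l * G))) := by
          congr 1
          ext z
          rw [lintegral_add_left measurable_const, lintegral_const, hvol,
            lintegral_const_mul' _ _ (by norm_num), lintegral_const_mul' _ _ ENNReal.ofReal_ne_top, hBQ]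
      _ = 2 * (ENNReal.ofReal l * (ENNReal.ofReal l * G)) * ENNReal.ofReal (l ^ 2) +
            2 * (ENNReal.ofReal l * (ENNReal.ofReal l * G)) * ENNReal.ofReal (l ^ 2) := by
          rw [lintegral_add_right _ measurable_const, lintegral_const, hvol,
            lintegral_mul_const' _ _ ENNReal.ofReal_ne_top,
            lintegral_const_mul' _ _ (by norm_num), lintegral_const_mul' _ _ ENNReal.ofReal_ne_top, hAQ]
      _ = _ := by
          rw [ENNReal.ofReal_mul (by norm_num : (0:ℝ) ≤ 4), ENNReal.ofReal_pow hl.le,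
            ENNReal.ofReal_pow hl.le]
          simp only [ENNReal.ofReal_ofNat]
          ring
  have hid : ∫⁻ z in sq l, ∫⁻ z' in sq l, ‖φ z - φ z'‖ₑ ^ 2 =
      ENNReal.ofReal (2 * l ^ 2 * (∫ z in sq l, φ z ^ 2) - 2 * (∫ z in sq l, φ z) ^ 2) := by
    have hreal : ∀ z, ∫ z' in sq l, (φ z - φ z') ^ 2 =
        φ z ^ 2 * l ^ 2 - 2 * φ z * (∫ z in sq l, φ z) + ∫ z in sq l, φ z ^ 2 := by
      intro z
      have h2 : (fun z' => (φ z - φ z') ^ 2) = fun z' => (φ z ^ 2 - (2 * φ z) * φ z') + φ z' ^ 2 := by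
        ext z'; ring
      rw [h2, integral_add, integral_sub, integral_const, integral_const_mul, hvr]
      · simp only [smul_eq_mul]; ring
      · exact integrable_const _
      · exact hi1.const_mul _
      · exact (integrable_const _).sub (hi1.const_mul _)
      · exact hi2
    have hin : ∀ z, ∫⁻ z' in sq l, ‖φ z - φ z'‖ₑ ^ 2 =
        ENNReal.ofReal (φ z ^ 2 * l ^ 2 - 2 * φ z * (∫ z in sq l, φ z) + ∫ z in sq l, φ z ^ 2) := by
      intro z
      have h1 : ∀ z', ‖φ z - φ z'‖ₑ ^ 2 = ENNReal.ofReal ((φ z - φ z') ^ 2) := by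
        intro z'
        rw [← ofReal_norm, ← ENNReal.ofReal_pow (norm_nonneg _), Real.norm_eq_abs, sq_abs]
      simp_rw [h1]
      have hint : Integrable (fun z' => (φ z - φ z') ^ 2) (volume.restrict (sq l)) := by
        have : Continuous fun z' => (φ z - φ z') ^ 2 := by
          have := hφ.continuous; fun_prop
        exact integrableOn_cont this (sq_subset l)
      rw [← ofReal_integral_eq_lintegral_ofReal hint (Eventually.of_forall fun _ => sq_nonneg _), hreal]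
    simp_rw [hin]
    have hint : Integrable (fun z => φ z ^ 2 * l ^ 2 - 2 * φ z * (∫ z in sq l, φ z) +
        ∫ z in sq l, φ z ^ 2) (volume.restrict (sq l)) := by
      have : Continuous fun z => φ z ^ 2 * l ^ 2 - 2 * φ z * (∫ z in sq l, φ z) +
        ∫ z in sq l, φ z ^ 2 := by
        have := hφ.continuous; fun_prop
      exact integrableOn_cont this (sq_subset l)
    rw [← ofReal_integral_eq_lintegral_ofReal hint]
    · congr 1
      rw [integral_add, integral_sub, integral_mul_const, integral_const, integral_mul_const,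
        integral_const_mul, hvr]
      · simp only [smul_eq_mul]; ring
      · exact hi2.mul_const _
      · exact (hi1.const_mul _).mul_const _
      · exact (hi2.mul_const _).sub ((hi1.const_mul _).mul_const _)
      · exact integrable_const _
    · refine Eventually.of_forall fun z => ?_
      simp only [Pi.zero_apply]
      rw [← hreal z]
      exact integral_nonneg fun _ => sq_nonneg _
  have hX : ∫⁻ z in sq l, ‖φ z‖ₑ ^ 2 = ENNReal.ofReal (∫ z in sq l, φ z ^ 2) := by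
    rw [ofReal_integral_eq_lintegral_ofReal hi2 (Eventually.of_forall fun _ => sq_nonneg _)]
    congr 1
    ext z
    rw [← ofReal_norm, ← ENNReal.ofReal_pow (norm_nonneg _), Real.norm_eq_abs, sq_abs]
  rw [hX, ← ENNReal.ofReal_mul (by positivity)]
  calc ENNReal.ofReal (2 * l ^ 2 * ∫ z in sq l, φ z ^ 2) =
      ENNReal.ofReal ((2 * l ^ 2 * (∫ z in sq l, φ z ^ 2) - 2 * (∫ z in sq l, φ z) ^ 2) +
        2 * (∫ z in sq l, φ z) ^ 2) := by ring_nf
    _ ≤ ENNReal.ofReal (2 * l ^ 2 * (∫ z in sq l, φ z ^ 2) - 2 * (∫ z in sq l, φ z) ^ 2) +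
        ENNReal.ofReal (2 * (∫ z in sq l, φ z) ^ 2) := ENNReal.ofReal_add_le
    _ ≤ _ := by
        have h5 := hup
        rw [hid] at h5
        exact add_le_add h5 (le_refl _)

/-! internal: the same triples as classes in `L²` spaces -/

abbrev LTriple (Ω : Set ℂ) : Type :=
  Lp ℝ 2 (volume.restrict Ω) × Lp ℂ 2 (volume.restrict Ω) × Lp ℝ 2 (bdry Ω)

def LC1 (Ω : Set ℂ) : Set (LTriple Ω) :=
  {w | ∃ φ : ℂ → ℝ, ContDiff ℝ 1 φ ∧ w.1 =ᵐ[volume.restrict Ω] φ ∧
    w.2.1 =ᵐ[volume.restrict Ω] grad φ ∧ w.2.2 =ᵐ[bdry Ω] φ}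

lemma nsq_congr {F : Type} [ENorm F] {μ : Measure ℂ} {f g : ℂ → F} (h : f =ᵐ[μ] g) : nsq μ f = nsq μ g :=
  lintegral_congr_ae (h.mono fun z hz => by simp only [hz])

lemma norm_toLp {F : Type} [NormedAddCommGroup F] {μ : Measure ℂ} {f : ℂ → F} (w : Lp F 2 μ)
    (h : w =ᵐ[μ] f) : ENNReal.ofReal (‖w‖ ^ 2) = nsq μ f := by
  rw [lp_norm_sq]; exact nsq_congr h

lemma nsq_lt_top {F : Type} [NormedAddCommGroup F] {μ : Measure ℂ} {f : ℂ → F} (h : MemLp f 2 μ) :
    nsq μ f < ∞ := by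
  rw [← norm_toLp (h.toLp f) h.coeFn_toLp]; exact ENNReal.ofReal_lt_top

lemma memLp_of_nsq {F : Type} [NormedAddCommGroup F] {μ : Measure ℂ} {f : ℂ → F}
    (hf : AEStronglyMeasurable f μ) (h : nsq μ f < ∞) : MemLp f 2 μ := by
  refine ⟨hf, ?_⟩
  have h2 : eLpNorm f 2 μ = (∫⁻ x, ‖f x‖ₑ ^ 2 ∂μ) ^ (1 / 2 : ℝ) := by
    have := eLpNorm_nnreal_eq_lintegral (f := f) (μ := μ) (p := 2) (by norm_num)
    simpa using this
  rw [h2]
  exact ENNReal.rpow_lt_top_of_nonneg (by norm_num) h.ne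

lemma norm_sub_toLp {F : Type} [NormedAddCommGroup F] {μ : Measure ℂ} {f g : ℂ → F} (hf : MemLp f 2 μ)
    (hg : MemLp g 2 μ) : ENNReal.ofReal (‖hf.toLp f - hg.toLp g‖ ^ 2) = nsq μ (fun z => f z - g z) := by
  apply norm_toLp
  filter_upwards [Lp.coeFn_sub (hf.toLp f) (hg.toLp g), hf.coeFn_toLp, hg.coeFn_toLp] with z h1 h2 h3
  rw [h1, Pi.sub_apply, h2, h3]

/-- an `H¹` triple gives an element of the closure of the `C¹` triples -/
lemma mem_closure_of_H1 {Ω : Set ℂ} {w : Triple} (h1 : MemLp w.1 2 (volume.restrict Ω))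
    (h2 : MemLp w.2.1 2 (volume.restrict Ω)) (h3 : MemLp w.2.2 2 (bdry Ω)) (hw : w ∈ H1 Ω) :
    ((h1.toLp w.1, h2.toLp w.2.1, h3.toLp w.2.2) : LTriple Ω) ∈ closure (LC1 Ω) := by
  rw [Metric.mem_closure_iff]
  intro ε hε
  obtain ⟨-, -, -, h⟩ := hw
  obtain ⟨φ, hφ, a1, a2, a3⟩ := h (ENNReal.ofReal (ε ^ 2)) (by rw [ENNReal.ofReal_pos]; positivity)
  have b1 : MemLp φ 2 (volume.restrict Ω) := by
    have h4 : MemLp (fun z => w.1 z - φ z) 2 (volume.restrict Ω) :=
      memLp_of_nsq (h1.1.sub hφ.continuous.aestronglyMeasurable) (a1.trans ENNReal.ofReal_lt_top)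
    have h5 := h1.sub h4
    refine h5.ae_eq (Eventually.of_forall fun z => ?_)
    simp
  have b2 : MemLp (grad φ) 2 (volume.restrict Ω) := by
    have h4 : MemLp (fun z => w.2.1 z - grad φ z) 2 (volume.restrict Ω) :=
      memLp_of_nsq (h2.1.sub (cont_grad φ hφ).aestronglyMeasurable) (a2.trans ENNReal.ofReal_lt_top)
    have h5 := h2.sub h4
    refine h5.ae_eq (Eventually.of_forall fun z => ?_)
    simp
  have b3 : MemLp φ 2 (bdry Ω) := by
    have h4 : MemLp (fun z => w.2.2 z - φ z) 2 (bdry Ω) :=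
      memLp_of_nsq (h3.1.sub hφ.continuous.aestronglyMeasurable) (a3.trans ENNReal.ofReal_lt_top)
    have h5 := h3.sub h4
    refine h5.ae_eq (Eventually.of_forall fun z => ?_)
    simp
  refine ⟨(b1.toLp φ, b2.toLp (grad φ), b3.toLp φ), ⟨φ, hφ, b1.coeFn_toLp, b2.coeFn_toLp, b3.coeFn_toLp⟩, ?_⟩
  have key : ∀ x : ℝ, 0 ≤ x → ENNReal.ofReal (x ^ 2) < ENNReal.ofReal (ε ^ 2) → x < ε := by
    intro x hx h
    rw [ENNReal.ofReal_lt_ofReal_iff (by positivity)] at h
    exact lt_of_pow_lt_pow_left₀ 2 hε.le h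
  rw [dist_eq_norm]
  refine max_lt (key _ (norm_nonneg _) ?_) (max_lt (key _ (norm_nonneg _) ?_) (key _ (norm_nonneg _) ?_))
  · exact (norm_sub_toLp h1 b1).trans_lt a1
  · exact (norm_sub_toLp h2 b2).trans_lt a2
  · exact (norm_sub_toLp h3 b3).trans_lt a3

/-- inequalities for `C¹` functions pass to `H¹` -/
lemma transfer {Ω : Set ℂ} (F : Lp ℝ 2 (volume.restrict Ω) →L[ℝ] ℝ) (a b c : ℝ) (ha : 0 ≤ a) (hb : 0 ≤ b)
    (hc : 0 ≤ c)
    (h : ∀ (u : Lp ℝ 2 (volume.restrict Ω)) (φ : ℂ → ℝ), ContDiff ℝ 1 φ → u =ᵐ[volume.restrict Ω] φ →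
      ∫⁻ z in Ω, ‖φ z‖ₑ ^ 2 ≤ ENNReal.ofReal a * (∫⁻ z in Ω, ‖grad φ z‖ₑ ^ 2) +
        ENNReal.ofReal b * (∫⁻ z in frontier Ω, ‖φ z‖ₑ ^ 2 ∂(Measure.hausdorffMeasure 1)) +
        ENNReal.ofReal (c * (F u) ^ 2)) (w : Triple) (hw : w ∈ H1 Ω) :
    nsq (volume.restrict Ω) w.1 ≤ ENNReal.ofReal a * nsq (volume.restrict Ω) w.2.1 +
      ENNReal.ofReal b * nsq (bdry Ω) w.2.2 + ENNReal.ofReal (c * (F (hw.1.toLp w.1)) ^ 2) := by
  have hcl : IsClosed {w : LTriple Ω | ‖w.1‖ ^ 2 ≤ a * ‖w.2.1‖ ^ 2 + b * ‖w.2.2‖ ^ 2 + c * (F w.1) ^ 2} := by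
    refine isClosed_le ?_ ?_
    · fun_prop
    · fun_prop
  have hm := mem_closure_of_H1 hw.1 hw.2.1 hw.2.2.1 hw
  have hfin : ((hw.1.toLp w.1, hw.2.1.toLp w.2.1, hw.2.2.1.toLp w.2.2) : LTriple Ω) ∈
      {w : LTriple Ω | ‖w.1‖ ^ 2 ≤ a * ‖w.2.1‖ ^ 2 + b * ‖w.2.2‖ ^ 2 + c * (F w.1) ^ 2} := by
    refine closure_minimal ?_ hcl hm
    rintro w ⟨φ, h0, h1, h2, h3⟩
    have := h w.1 φ h0 h1
    have e1 : ENNReal.ofReal (‖w.1‖ ^ 2) = ∫⁻ z in Ω, ‖φ z‖ₑ ^ 2 := norm_toLp w.1 h1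
    have e2 : ENNReal.ofReal (‖w.2.1‖ ^ 2) = ∫⁻ z in Ω, ‖grad φ z‖ₑ ^ 2 := norm_toLp w.2.1 h2
    have e3 : ENNReal.ofReal (‖w.2.2‖ ^ 2) = ∫⁻ z in frontier Ω, ‖φ z‖ₑ ^ 2 ∂(Measure.hausdorffMeasure 1) :=
      norm_toLp w.2.2 h3
    rw [← e1, ← e2, ← e3, ← ENNReal.ofReal_mul ha, ← ENNReal.ofReal_mul hb,
      ← ENNReal.ofReal_add (by positivity) (by positivity),
      ← ENNReal.ofReal_add (by positivity) (by positivity), ENNReal.ofReal_le_ofReal_iff (by positivity)] at this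
    exact this
  have h5 := ENNReal.ofReal_le_ofReal hfin
  rw [ENNReal.ofReal_add (by positivity) (by positivity), ENNReal.ofReal_add (by positivity) (by positivity),
    ENNReal.ofReal_mul ha, ENNReal.ofReal_mul hb, norm_toLp _ hw.1.coeFn_toLp,
    norm_toLp _ hw.2.1.coeFn_toLp, norm_toLp _ hw.2.2.1.coeFn_toLp] at h5
  exact h5

/-- the triple of a `C¹` function -/
noncomputable def T (φ : ℂ → ℝ) : Triple := (φ, grad φ, φ)

/-- `C¹` functions give elements of `H¹(Ω)` -/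
lemma T_mem_H1 {Ω : Set ℂ} {r : ℝ} (hb : Ω ⊆ Metric.closedBall 0 r)
    (hfin : (Measure.hausdorffMeasure 1 : Measure ℂ) (frontier Ω) < ∞) (φ : ℂ → ℝ)
    (hφ : ContDiff ℝ 1 φ) : T φ ∈ H1 Ω := by
  have hfr : frontier Ω ⊆ Metric.closedBall 0 r :=
    frontier_subset_closure.trans (closure_minimal hb Metric.isClosed_closedBall)
  have f1 : IsFiniteMeasure (volume.restrict Ω : Measure ℂ) := by
    constructor
    rw [Measure.restrict_apply_univ]
    exact (measure_mono hb).trans_lt measure_closedBall_lt_top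
  have f2 : IsFiniteMeasure (bdry Ω) := by
    constructor
    rw [bdry, Measure.restrict_apply_univ]
    exact hfin
  obtain ⟨C, hC⟩ := (isCompact_closedBall (0:ℂ) r).exists_bound_of_continuousOn hφ.continuous.continuousOn
  have hd : Continuous (grad φ) := cont_grad φ hφ
  obtain ⟨D, hD⟩ := (isCompact_closedBall (0:ℂ) r).exists_bound_of_continuousOn hd.continuousOn
  have hin : ∀ᵐ z ∂(volume.restrict Ω : Measure ℂ), z ∈ Metric.closedBall (0:ℂ) r := by
    have : ∀ᵐ z ∂(volume.restrict (Metric.closedBall (0:ℂ) r) : Measure ℂ), z ∈ Metric.closedBall (0:ℂ) r :=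
      ae_restrict_mem Metric.isClosed_closedBall.measurableSet
    exact (Measure.absolutelyContinuous_of_le (Measure.restrict_mono hb le_rfl)).ae_le this
  have hin2 : ∀ᵐ z ∂(bdry Ω), z ∈ Metric.closedBall (0:ℂ) r :=
    (ae_restrict_mem isClosed_frontier.measurableSet).mono fun z hz => hfr hz
  have m1 : MemLp φ 2 (volume.restrict Ω) :=
    MemLp.of_bound hφ.continuous.aestronglyMeasurable C (hin.mono fun z hz => hC z hz)
  have m2 : MemLp (grad φ) 2 (volume.restrict Ω) :=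
    MemLp.of_bound hd.aestronglyMeasurable D (hin.mono fun z hz => hD z hz)
  have m3 : MemLp φ 2 (bdry Ω) :=
    MemLp.of_bound hφ.continuous.aestronglyMeasurable C (hin2.mono fun z hz => hC z hz)
  refine ⟨m1, m2, m3, fun ε hε => ⟨φ, hφ, ?_, ?_, ?_⟩⟩
  · simp only [T, nsq, sub_self, enorm_zero]
    simpa using hε
  · simp only [T, nsq, sub_self, enorm_zero]
    simpa using hε
  · simp only [T, nsq, sub_self, enorm_zero]
    simpa using hε

lemma grad_lin {φ ψ : ℂ → ℝ} (hφ : ContDiff ℝ 1 φ) (hψ : ContDiff ℝ 1 ψ) (a b : ℝ) (z : ℂ) :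
    grad (fun z => a * φ z + b * ψ z) z = a • grad φ z + b • grad ψ z := by
  have h1 : DifferentiableAt ℝ φ z := hφ.differentiable (by norm_num) z
  have h2 : DifferentiableAt ℝ ψ z := hψ.differentiable (by norm_num) z
  have h3 : fderiv ℝ (fun z => a * φ z + b * ψ z) z = a • fderiv ℝ φ z + b • fderiv ℝ ψ z := by
    rw [fderiv_fun_add (h1.const_mul a) (h2.const_mul b), fderiv_const_mul h1, fderiv_const_mul h2]
  apply Complex.ext <;> simp [grad, h3]

lemma T_lin {φ ψ : ℂ → ℝ} (hφ : ContDiff ℝ 1 φ) (hψ : ContDiff ℝ 1 ψ) (a b : ℝ) :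
    T (fun z => a * φ z + b * ψ z) = a • T φ + b • T ψ := by
  refine Prod.ext ?_ (Prod.ext ?_ ?_)
  · rfl
  · funext z; exact grad_lin hφ hψ a b z
  · rfl

lemma nsq_smul {F : Type} [NormedAddCommGroup F] [NormedSpace ℝ F] (μ : Measure ℂ) (c : ℝ) (f : ℂ → F) :
    nsq μ (c • f) = ‖c‖ₑ ^ 2 * nsq μ f := by
  rw [nsq, nsq, ← lintegral_const_mul' _ _ (by simp)]
  refine lintegral_congr fun z => ?_
  rw [Pi.smul_apply, enorm_smul, mul_pow]

lemma rayleigh_smul (β : ℝ) (Ω : Set ℂ) (w : Triple) (c : ℝ) (hc : c ≠ 0) :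
    rayleigh β Ω (c • w) = rayleigh β Ω w := by
  have h1 : (c • w).1 = c • w.1 := rfl
  have h2 : (c • w).2.1 = c • w.2.1 := rfl
  have h3 : (c • w).2.2 = c • w.2.2 := rfl
  have hc2 : ‖c‖ₑ ^ 2 ≠ 0 := by simp [hc]
  have hc3 : ‖c‖ₑ ^ 2 ≠ ∞ := by simp
  rw [rayleigh, rayleigh, h1, h2, h3, nsq_smul, nsq_smul, nsq_smul,
    show ‖c‖ₑ ^ 2 * nsq (volume.restrict Ω) w.2.1 + ENNReal.ofReal β * (‖c‖ₑ ^ 2 * nsq (bdry Ω) w.2.2) =
      ‖c‖ₑ ^ 2 * (nsq (volume.restrict Ω) w.2.1 + ENNReal.ofReal β * nsq (bdry Ω) w.2.2) by ring,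
    ENNReal.mul_div_mul_left _ _ hc2 hc3]

/-- upper bound for the first eigenvalue by a test function -/
lemma nu_one_le {β : ℝ} {Ω : Set ℂ} {r : ℝ} (hb : Ω ⊆ Metric.closedBall 0 r)
    (hfin : (Measure.hausdorffMeasure 1 : Measure ℂ) (frontier Ω) < ∞) (φ : ℂ → ℝ)
    (hφ : ContDiff ℝ 1 φ) (hne : nsq (volume.restrict Ω) φ ≠ 0) :
    nu β Ω 1 ≤ rayleigh β Ω (T φ) := by
  have hT0 : T φ ≠ 0 := by
    intro h
    apply hne
    have h1 : φ = 0 := congrArg Prod.fst h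
    rw [h1]
    simp [nsq]
  refine iInf₂_le_of_le (Submodule.span ℝ {T φ}) ⟨finrank_span_singleton hT0, ?_⟩ ?_
  · intro v hv
    obtain ⟨c, rfl⟩ := Submodule.mem_span_singleton.1 hv
    refine ⟨?_, ?_⟩
    · have h1 : c • T φ = T (fun z => c * φ z + 0 * φ z) := by
        rw [T_lin hφ hφ, zero_smul, add_zero]
      rw [h1]
      exact T_mem_H1 hb hfin _ ((contDiff_const.mul hφ).add (contDiff_const.mul hφ))
    · intro hc0
      have hc : c ≠ 0 := by
        rintro rfl; exact hc0 (zero_smul _ _)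
      have h1 : (c • T φ).1 = c • φ := rfl
      rw [h1, nsq_smul]
      exact mul_ne_zero (by simp [hc]) hne
  · refine iSup₂_le fun v hv => ?_
    obtain ⟨c, rfl⟩ := Submodule.mem_span_singleton.1 hv.1
    have hc : c ≠ 0 := by
      rintro rfl; exact hv.2 (by rw [zero_smul])
    rw [rayleigh_smul β Ω _ c hc]

/-- lower bound for the second eigenvalue -/
lemma le_nu_two {β : ℝ} {Ω : Set ℂ} (Λ : ℝ) (F : Lp ℝ 2 (volume.restrict Ω) →L[ℝ] ℝ)
    (h : ∀ (w : Triple) (hw : w ∈ H1 Ω), F (hw.1.toLp w.1) = 0 →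
      ENNReal.ofReal Λ * nsq (volume.restrict Ω) w.1 ≤
        nsq (volume.restrict Ω) w.2.1 + ENNReal.ofReal β * nsq (bdry Ω) w.2.2) :
    ENNReal.ofReal Λ ≤ nu β Ω 2 := by
  refine le_iInf₂ fun V hV => ?_
  obtain ⟨hV1, hV2⟩ := hV
  have : Module.Finite ℝ V := Module.finite_of_finrank_pos (by omega)
  let G : V →ₗ[ℝ] ℝ :=
    { toFun := fun v => F ((hV2 v.1 v.2).1.1.toLp v.1.1)
      map_add' := by
        intro v w
        rw [← map_add]
        congr 1
      map_smul' := by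
        intro c v
        rw [RingHom.id_apply, ← map_smul]
        congr 1 }
  have hex : ∃ v : V, v ≠ 0 ∧ G v = 0 := by
    have hr := LinearMap.finrank_range_add_finrank_ker G
    have hr1 : Module.finrank ℝ (LinearMap.range G) ≤ 1 := by
      have := Submodule.finrank_le (LinearMap.range G)
      simpa using this
    have hk : 1 ≤ Module.finrank ℝ (LinearMap.ker G) := by omega
    rw [Submodule.one_le_finrank_iff] at hk
    obtain ⟨v, hv, hv0⟩ := Submodule.exists_mem_ne_zero_of_ne_bot hk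
    rw [LinearMap.mem_ker] at hv
    exact ⟨v, hv0, hv⟩
  obtain ⟨v, hv0, hFv⟩ := hex
  have hv0' : (v : Triple) ≠ 0 := fun h0 => hv0 (Subtype.ext h0)
  refine le_iSup₂_of_le (v : Triple) ⟨v.2, hv0'⟩ ?_
  have h1 : nsq (volume.restrict Ω) (v : Triple).1 ≠ 0 := (hV2 _ v.2).2 hv0'
  have h2 : nsq (volume.restrict Ω) (v : Triple).1 ≠ ∞ := (nsq_lt_top (hV2 _ v.2).1.1).ne
  rw [rayleigh, ENNReal.le_div_iff_mul_le (Or.inl h1) (Or.inl h2)]
  exact h _ (hV2 _ v.2).1 hFv

/-- lower bound for the first eigenvalue -/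
lemma le_nu_one {β : ℝ} {Ω : Set ℂ} (Λ : ℝ)
    (h : ∀ w ∈ H1 Ω, ENNReal.ofReal Λ * nsq (volume.restrict Ω) w.1 ≤
        nsq (volume.restrict Ω) w.2.1 + ENNReal.ofReal β * nsq (bdry Ω) w.2.2) :
    ENNReal.ofReal Λ ≤ nu β Ω 1 := by
  refine le_iInf₂ fun V hV => ?_
  obtain ⟨hV1, hV2⟩ := hV
  have : Module.Finite ℝ V := Module.finite_of_finrank_pos (by omega)
  obtain ⟨v, hv0⟩ := Module.finrank_pos_iff_exists_ne_zero.1 (show 0 < Module.finrank ℝ V by omega)
  have hv0' : (v : Triple) ≠ 0 := fun h0 => hv0 (Subtype.ext h0)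
  refine le_iSup₂_of_le (v : Triple) ⟨v.2, hv0'⟩ ?_
  have h1 : nsq (volume.restrict Ω) (v : Triple).1 ≠ 0 := (hV2 _ v.2).2 hv0'
  have h2 : nsq (volume.restrict Ω) (v : Triple).1 ≠ ∞ := (nsq_lt_top (hV2 _ v.2).1.1).ne
  rw [rayleigh, ENNReal.le_div_iff_mul_le (Or.inl h1) (Or.inl h2)]
  exact h _ (hV2 _ v.2).1

/-- finiteness of the second eigenvalue -/
lemma nu_two_lt_top {β : ℝ} (hβ : 0 ≤ β) {Ω : Set ℂ} {r : ℝ} (hb : Ω ⊆ Metric.closedBall 0 r)
    (hfin : (Measure.hausdorffMeasure 1 : Measure ℂ) (frontier Ω) < ∞) (ho : IsOpen Ω)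
    (hne : Ω.Nonempty) : nu β Ω 2 < ∞ := by
  have hone : ContDiff ℝ 1 (fun _ : ℂ => (1:ℝ)) := contDiff_const
  have hre : ContDiff ℝ 1 Complex.re := Complex.reCLM.contDiff
  obtain ⟨a1, a2, a3, -⟩ := T_mem_H1 hb hfin _ hone
  obtain ⟨b1, b2, b3, -⟩ := T_mem_H1 hb hfin _ hre
  let w1 : LTriple Ω := (a1.toLp _, a2.toLp _, a3.toLp _)
  let w2 : LTriple Ω := (b1.toLp _, b2.toLp _, b3.toLp _)
  let L : (ℝ × ℝ) →ₗ[ℝ] LTriple Ω :=
    { toFun := fun p => p.1 • w1 + p.2 • w2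
      map_add' := by intro p q; simp only [Prod.fst_add, Prod.snd_add, add_smul]; abel
      map_smul' := by
        intro c p
        simp only [Prod.smul_fst, Prod.smul_snd, smul_eq_mul, mul_smul, smul_add, RingHom.id_apply] }
  let S : (ℝ × ℝ) →ₗ[ℝ] Triple :=
    { toFun := fun p => p.1 • T (fun _ => 1) + p.2 • T Complex.re
      map_add' := by intro p q; simp only [Prod.fst_add, Prod.snd_add, add_smul]; abel
      map_smul' := by
        intro c p
        simp only [Prod.smul_fst, Prod.smul_snd, smul_eq_mul, mul_smul, smul_add, RingHom.id_apply] }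
  have hL1 : ∀ p : ℝ × ℝ, (L p).1 =ᵐ[volume.restrict Ω] (S p).1 := by
    intro p
    have e1 : (L p).1 = p.1 • w1.1 + p.2 • w2.1 := rfl
    rw [e1]
    filter_upwards [Lp.coeFn_add (p.1 • w1.1) (p.2 • w2.1), Lp.coeFn_smul p.1 w1.1,
      Lp.coeFn_smul p.2 w2.1, a1.coeFn_toLp, b1.coeFn_toLp] with z h1 h2 h3 h4 h5
    rw [h1, Pi.add_apply, h2, h3, Pi.smul_apply, Pi.smul_apply, h4, h5]
    rfl
  have hL2 : ∀ p : ℝ × ℝ, (L p).2.1 =ᵐ[volume.restrict Ω] (S p).2.1 := by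
    intro p
    have e1 : (L p).2.1 = p.1 • w1.2.1 + p.2 • w2.2.1 := rfl
    rw [e1]
    filter_upwards [Lp.coeFn_add (p.1 • w1.2.1) (p.2 • w2.2.1), Lp.coeFn_smul p.1 w1.2.1,
      Lp.coeFn_smul p.2 w2.2.1, a2.coeFn_toLp, b2.coeFn_toLp] with z h1 h2 h3 h4 h5
    rw [h1, Pi.add_apply, h2, h3, Pi.smul_apply, Pi.smul_apply, h4, h5]
    rfl
  have hL3 : ∀ p : ℝ × ℝ, (L p).2.2 =ᵐ[bdry Ω] (S p).2.2 := by
    intro p
    have e1 : (L p).2.2 = p.1 • w1.2.2 + p.2 • w2.2.2 := rfl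
    rw [e1]
    filter_upwards [Lp.coeFn_add (p.1 • w1.2.2) (p.2 • w2.2.2), Lp.coeFn_smul p.1 w1.2.2,
      Lp.coeFn_smul p.2 w2.2.2, a3.coeFn_toLp, b3.coeFn_toLp] with z h1 h2 h3 h4 h5
    rw [h1, Pi.add_apply, h2, h3, Pi.smul_apply, Pi.smul_apply, h4, h5]
    rfl
  have hS1 : ∀ (p : ℝ × ℝ) (z : ℂ), (S p).1 z = p.1 + p.2 * z.re := by
    intro p z
    change p.1 * 1 + p.2 * z.re = _
    ring
  have hinj : ∀ p : ℝ × ℝ, (L p).1 = 0 → p = 0 := by
    intro p hp
    have h0 : ∀ᵐ z ∂(volume.restrict Ω : Measure ℂ), p.1 + p.2 * z.re = 0 := by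
      filter_upwards [hL1 p, (hp ▸ Lp.coeFn_zero ℝ 2 (volume.restrict Ω) :
        ((L p).1 : ℂ → ℝ) =ᵐ[volume.restrict Ω] 0)] with z h1 h2
      rw [← hS1, ← h1, h2]; rfl
    rw [ae_restrict_iff' ho.measurableSet] at h0
    have hopen : IsOpen (Ω ∩ {z | p.1 + p.2 * z.re ≠ 0}) := by
      refine ho.inter (isOpen_ne_fun ?_ continuous_const)
      have := Complex.continuous_re
      fun_prop
    have hnull : volume (Ω ∩ {z : ℂ | p.1 + p.2 * z.re ≠ 0}) = 0 := by
      rw [measure_eq_zero_iff_ae_notMem]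
      filter_upwards [h0] with z hz
      rintro ⟨h1, h2⟩
      exact h2 (hz h1)
    have hnull2 : Ω ∩ {z : ℂ | p.1 + p.2 * z.re ≠ 0} = ∅ :=
      (hopen.measure_eq_zero_iff volume).1 hnull
    have hall : ∀ z ∈ Ω, p.1 + p.2 * z.re = 0 := by
      intro z hz
      by_contra hc
      have : z ∈ Ω ∩ {z : ℂ | p.1 + p.2 * z.re ≠ 0} := ⟨hz, hc⟩
      rw [hnull2] at this
      exact this
    obtain ⟨z0, hz0⟩ := hne
    obtain ⟨ε, hε, hball⟩ := Metric.isOpen_iff.1 ho z0 hz0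
    have hz1 : z0 + (ε / 2 : ℝ) ∈ Ω := by
      apply hball
      rw [Metric.mem_ball, dist_eq_norm, add_sub_cancel_left, Complex.norm_real, Real.norm_eq_abs,
        abs_of_pos (by positivity)]
      linarith
    have e0 := hall z0 hz0
    have e1 := hall _ hz1
    simp only [Complex.add_re, Complex.ofReal_re] at e1
    have h2 : p.2 * (ε / 2) = 0 := by linarith
    have h3 : p.2 = 0 := by
      rcases mul_eq_zero.1 h2 with h | h
      · exact h
      · linarith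
    have h4 : p.1 = 0 := by rw [h3] at e0; linarith
    exact Prod.ext h4 h3
  have hmass : ∀ p : ℝ × ℝ, nsq (volume.restrict Ω) (S p).1 = ENNReal.ofReal (‖(L p).1‖ ^ 2) := fun p =>
    (norm_toLp _ (hL1 p)).symm
  have hSinj : Function.Injective S := by
    rw [injective_iff_map_eq_zero]
    intro p hp
    apply hinj p
    have h1 := hmass p
    rw [hp] at h1
    have h2 : nsq (volume.restrict Ω) (0 : Triple).1 = 0 := by
      have : (0 : Triple).1 = fun _ => (0:ℝ) := rfl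
      rw [this]; simp [nsq]
    rw [h2] at h1
    have h3 := ENNReal.ofReal_eq_zero.1 h1.symm
    have h4 : ‖(L p).1‖ = 0 := by nlinarith [norm_nonneg (L p).1, sq_nonneg ‖(L p).1‖]
    exact norm_eq_zero.1 h4
  set V := LinearMap.range S with hV
  have hVfin : Module.finrank ℝ V = 2 := by
    rw [hV, LinearMap.finrank_range_of_inj hSinj]
    simp
  let F : (ℝ × ℝ) →ₗ[ℝ] Lp ℝ 2 (volume.restrict Ω : Measure ℂ) := (LinearMap.fst ℝ _ _).comp L
  have hF : LinearMap.ker F = ⊥ := by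
    rw [LinearMap.ker_eq_bot']
    intro p hp
    exact hinj p hp
  obtain ⟨K, hK0, hK⟩ := LinearMap.exists_antilipschitzWith F hF
  have hLc : Continuous L := L.continuous_of_finiteDimensional
  let L' : (ℝ × ℝ) →L[ℝ] LTriple Ω := ⟨L, hLc⟩
  have hbd : ∀ p, ‖L p‖ ≤ (‖L'‖ * K) * ‖(L p).1‖ := by
    intro p
    have h1 : ‖p‖ ≤ K * ‖F p‖ := by simpa using hK.le_mul_norm_sub p 0
    have h2 := L'.le_opNorm p
    have h3 : F p = (L p).1 := rfl
    rw [h3] at h1
    calc ‖L p‖ ≤ ‖L'‖ * ‖p‖ := h2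
      _ ≤ ‖L'‖ * (K * ‖(L p).1‖) := by gcongr
      _ = _ := by ring
  set K' : ℝ := ‖L'‖ * K
  refine lt_of_le_of_lt (iInf₂_le_of_le V ⟨hVfin, ?_⟩
    (iSup₂_le (a := ENNReal.ofReal ((1 + β) * K' ^ 2)) fun w hw => ?_)) ENNReal.ofReal_lt_top
  · rintro w ⟨p, rfl⟩
    refine ⟨?_, ?_⟩
    · have h1 : S p = T (fun z => p.1 * 1 + p.2 * z.re) := (T_lin hone hre p.1 p.2).symm
      rw [h1]
      exact T_mem_H1 hb hfin _ ((contDiff_const.mul hone).add (contDiff_const.mul hre))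
    · intro hne0
      rw [hmass p]
      have : (L p).1 ≠ 0 := by
        intro h
        exact hne0 (by rw [hinj p h, map_zero])
      rw [Ne, ENNReal.ofReal_eq_zero, not_le]
      positivity
  · obtain ⟨⟨p, rfl⟩, hw0⟩ := hw
    have h1 : (L p).1 ≠ 0 := by
      intro h
      exact hw0 (by rw [hinj p h, map_zero])
    have e2 : nsq (volume.restrict Ω) (S p).2.1 = ENNReal.ofReal (‖(L p).2.1‖ ^ 2) :=
      (norm_toLp _ (hL2 p)).symm
    have e3 : nsq (bdry Ω) (S p).2.2 = ENNReal.ofReal (‖(L p).2.2‖ ^ 2) := (norm_toLp _ (hL3 p)).symm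
    have h2 : 0 < ‖(L p).1‖ ^ 2 := by positivity
    rw [rayleigh, hmass, e2, e3, ← ENNReal.ofReal_mul hβ, ← ENNReal.ofReal_add (by positivity) (by positivity),
      ← ENNReal.ofReal_div_of_pos h2]
    apply ENNReal.ofReal_le_ofReal
    rw [div_le_iff₀ h2]
    have h3 := hbd p
    have h4 : ‖(L p).2.1‖ ≤ ‖L p‖ := (norm_fst_le (L p).2).trans (norm_snd_le (L p))
    have h5 : ‖(L p).2.2‖ ≤ ‖L p‖ := (norm_snd_le (L p).2).trans (norm_snd_le (L p))
    have h6 : ‖(L p).2.1‖ ^ 2 ≤ (K' * ‖(L p).1‖) ^ 2 := by gcongr; exact h4.trans h3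
    have h7 : ‖(L p).2.2‖ ^ 2 ≤ (K' * ‖(L p).1‖) ^ 2 := by gcongr; exact h5.trans h3
    nlinarith [mul_le_mul_of_nonneg_left h7 hβ]

/-- Cartesian coordinates with second axis `(a, b)` -/
noncomputable def frame (a b : ℝ) (h : a ^ 2 + b ^ 2 = 1) : ℂ ≃ₗᵢ[ℝ] ℂ :=
  LinearIsometry.toLinearIsometryEquiv
    { toFun := fun z => ⟨b * z.re - a * z.im, a * z.re + b * z.im⟩
      map_add' := by intro z w; apply Complex.ext <;> simp <;> ring
      map_smul' := by intro c z; apply Complex.ext <;> simp <;> ring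
      norm_map' := by
        intro z
        have h1 : Complex.normSq ⟨b * z.re - a * z.im, a * z.re + b * z.im⟩ = Complex.normSq z := by
          simp only [Complex.normSq_apply]
          linear_combination (z.re * z.re + z.im * z.im) * h
        simp only [LinearMap.coe_mk, AddHom.coe_mk]
        rw [← Real.sqrt_sq (norm_nonneg _), ← Complex.normSq_eq_norm_sq, h1,
          Complex.normSq_eq_norm_sq, Real.sqrt_sq (norm_nonneg _)] } rfl

lemma frame_re (a b : ℝ) (h : a ^ 2 + b ^ 2 = 1) (z : ℂ) :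
    (frame a b h z).re = b * z.re - a * z.im := rfl

lemma frame_im (a b : ℝ) (h : a ^ 2 + b ^ 2 = 1) (z : ℂ) :
    (frame a b h z).im = a * z.re + b * z.im := rfl

/-- local chart condition -/
def Chart (Ω : Set ℂ) (p : ℂ) : Prop := ∃ (e : ℂ ≃ₗᵢ[ℝ] ℂ) (g : ℝ → ℝ) (K : ℝ≥0) (U : Set ℂ),
    LipschitzWith K g ∧ IsOpen U ∧ p ∈ U ∧ ∀ z ∈ U, (z ∈ Ω ↔ g (e z).re < (e z).im)

lemma chart_half {Ω U : Set ℂ} {p : ℂ} (a b s : ℝ) (h : a ^ 2 + b ^ 2 = 1) (hU : IsOpen U)
    (hp : p ∈ U) (hz : ∀ z ∈ U, (z ∈ Ω ↔ s < a * z.re + b * z.im)) : Chart Ω p := by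
  refine ⟨frame a b h, fun _ => s, 0, U, LipschitzWith.const _, hU, hp, fun z hzU => ?_⟩
  rw [hz z hzU, frame_im]

lemma lip_abs (c d s : ℝ) (hs : |s| ≤ 1) : LipschitzWith 1 fun t : ℝ => s * |t - c| + d := by
  refine LipschitzWith.of_dist_le_mul fun x y => ?_
  rw [NNReal.coe_one, one_mul, Real.dist_eq, Real.dist_eq,
    show s * |x - c| + d - (s * |y - c| + d) = s * (|x - c| - |y - c|) by ring, abs_mul]
  have h1 : |(|x - c| - |y - c|)| ≤ |x - y| := by
    have := abs_abs_sub_abs_le_abs_sub (x - c) (y - c)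
    simpa using this
  calc |s| * |(|x - c| - |y - c|)| ≤ 1 * |x - y| := by gcongr
    _ = _ := one_mul _

lemma chart_and {Ω U : Set ℂ} {p : ℂ} (σ τ s t : ℝ) (hσ : σ = 1 ∨ σ = -1) (hτ : τ = 1 ∨ τ = -1)
    (hU : IsOpen U) (hp : p ∈ U) (hz : ∀ z ∈ U, (z ∈ Ω ↔ s < σ * z.re ∧ t < τ * z.im)) :
    Chart Ω p := by
  have hr : (0:ℝ) < √2 := by positivity
  have hr2 : √2 * √2 = 2 := Real.mul_self_sqrt (by norm_num)
  have h : (σ / √2) ^ 2 + (τ / √2) ^ 2 = 1 := by
    rw [div_pow, div_pow, Real.sq_sqrt (by norm_num)]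
    rcases hσ with rfl | rfl <;> rcases hτ with rfl | rfl <;> norm_num
  refine ⟨frame _ _ h, fun x => 1 * |x - σ * τ * (s - t) / √2| + (s + t) / √2, 1, U,
    lip_abs _ _ _ (by simp), hU, hp, fun z hzU => ?_⟩
  rw [hz z hzU, frame_re, frame_im]
  beta_reduce
  have e1 : |τ / √2 * z.re - σ / √2 * z.im - σ * τ * (s - t) / √2| =
      |(σ * z.re - s) - (τ * z.im - t)| / √2 := by
    rw [show τ / √2 * z.re - σ / √2 * z.im - σ * τ * (s - t) / √2 =
      (τ * z.re - σ * z.im - σ * τ * (s - t)) / √2 by ring, abs_div, abs_of_pos hr]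
    congr 1
    rcases hσ with rfl | rfl <;> rcases hτ with rfl | rfl
    · congr 1; ring
    · rw [← abs_neg]; congr 1; ring
    · rw [← abs_neg]; congr 1; ring
    · congr 1; ring
  rw [e1, show σ / √2 * z.re + τ / √2 * z.im = (σ * z.re + τ * z.im) / √2 by ring, one_mul,
    ← add_div, div_lt_div_iff_of_pos_right hr]
  constructor
  · rintro ⟨h1, h2⟩
    rcases abs_cases ((σ * z.re - s) - (τ * z.im - t)) with h3 | h3 <;> linarith [h3.1]
  · intro h1
    have h2 := le_abs_self ((σ * z.re - s) - (τ * z.im - t))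
    have h3 := neg_abs_le ((σ * z.re - s) - (τ * z.im - t))
    constructor <;> linarith

lemma chart_or {Ω U : Set ℂ} {p : ℂ} (σ τ s t : ℝ) (hσ : σ = 1 ∨ σ = -1) (hτ : τ = 1 ∨ τ = -1)
    (hU : IsOpen U) (hp : p ∈ U) (hz : ∀ z ∈ U, (z ∈ Ω ↔ s < σ * z.re ∨ t < τ * z.im)) :
    Chart Ω p := by
  have hr : (0:ℝ) < √2 := by positivity
  have hr2 : √2 * √2 = 2 := Real.mul_self_sqrt (by norm_num)
  have h : (σ / √2) ^ 2 + (τ / √2) ^ 2 = 1 := by
    rw [div_pow, div_pow, Real.sq_sqrt (by norm_num)]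
    rcases hσ with rfl | rfl <;> rcases hτ with rfl | rfl <;> norm_num
  refine ⟨frame _ _ h, fun x => (-1) * |x - σ * τ * (s - t) / √2| + (s + t) / √2, 1, U,
    lip_abs _ _ _ (by simp), hU, hp, fun z hzU => ?_⟩
  rw [hz z hzU, frame_re, frame_im]
  beta_reduce
  have e1 : |τ / √2 * z.re - σ / √2 * z.im - σ * τ * (s - t) / √2| =
      |(σ * z.re - s) - (τ * z.im - t)| / √2 := by
    rw [show τ / √2 * z.re - σ / √2 * z.im - σ * τ * (s - t) / √2 =
      (τ * z.re - σ * z.im - σ * τ * (s - t)) / √2 by ring, abs_div, abs_of_pos hr]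
    congr 1
    rcases hσ with rfl | rfl <;> rcases hτ with rfl | rfl
    · congr 1; ring
    · rw [← abs_neg]; congr 1; ring
    · rw [← abs_neg]; congr 1; ring
    · congr 1; ring
  rw [e1, show σ / √2 * z.re + τ / √2 * z.im = (σ * z.re + τ * z.im) / √2 by ring,
    show (-1) * (|(σ * z.re - s) - (τ * z.im - t)| / √2) = (-|(σ * z.re - s) - (τ * z.im - t)|) / √2 by ring,
    ← add_div, div_lt_div_iff_of_pos_right hr]
  constructor
  · rintro (h1 | h1)
    · have h3 := neg_abs_le ((σ * z.re - s) - (τ * z.im - t))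
      have h2 := le_abs_self ((σ * z.re - s) - (τ * z.im - t))
      linarith
    · have h3 := neg_abs_le ((σ * z.re - s) - (τ * z.im - t))
      linarith
  · intro h1
    by_contra hc
    push Not at hc
    rcases abs_cases ((σ * z.re - s) - (τ * z.im - t)) with h3 | h3 <;> linarith [h3.1, hc.1, hc.2]

/-- open box -/
def box (a b c d : ℝ) : Set ℂ := {z | a < z.re ∧ z.re < b ∧ c < z.im ∧ z.im < d}

lemma box_open (a b c d : ℝ) : IsOpen (box a b c d) := by
  have h1 := Complex.continuous_re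
  have h2 := Complex.continuous_im
  exact (isOpen_lt continuous_const h1).inter ((isOpen_lt h1 continuous_const).inter
    ((isOpen_lt continuous_const h2).inter (isOpen_lt h2 continuous_const)))

/-- square with a tail -/
def flag (l w L : ℝ) : Set ℂ := box 0 l 0 l ∪ box 0 (l + L) 0 w

lemma mem_flag (l w L : ℝ) (z : ℂ) : z ∈ flag l w L ↔
    (0 < z.re ∧ z.re < l ∧ 0 < z.im ∧ z.im < l) ∨ (0 < z.re ∧ z.re < l + L ∧ 0 < z.im ∧ z.im < w) :=
  Iff.rfl

lemma flag_open (l w L : ℝ) : IsOpen (flag l w L) := (box_open _ _ _ _).union (box_open _ _ _ _)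

/-- closed box -/
def cbox (a b c d : ℝ) : Set ℂ := {z | a ≤ z.re ∧ z.re ≤ b ∧ c ≤ z.im ∧ z.im ≤ d}

lemma cbox_closed (a b c d : ℝ) : IsClosed (cbox a b c d) := by
  have h1 := Complex.continuous_re
  have h2 := Complex.continuous_im
  exact (isClosed_le continuous_const h1).inter ((isClosed_le h1 continuous_const).inter
    ((isClosed_le continuous_const h2).inter (isClosed_le h2 continuous_const)))

lemma flag_frontier {l w L : ℝ} {z : ℂ} (hz : z ∈ frontier (flag l w L)) :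
    ((0 ≤ z.re ∧ z.re ≤ l ∧ 0 ≤ z.im ∧ z.im ≤ l) ∨ (0 ≤ z.re ∧ z.re ≤ l + L ∧ 0 ≤ z.im ∧ z.im ≤ w)) ∧
    z ∉ flag l w L := by
  rw [(flag_open l w L).frontier_eq] at hz
  refine ⟨?_, hz.2⟩
  have hsub : flag l w L ⊆ cbox 0 l 0 l ∪ cbox 0 (l + L) 0 w := by
    rintro z (h | h)
    · exact Or.inl ⟨h.1.le, h.2.1.le, h.2.2.1.le, h.2.2.2.le⟩
    · exact Or.inr ⟨h.1.le, h.2.1.le, h.2.2.1.le, h.2.2.2.le⟩
  exact closure_minimal hsub ((cbox_closed _ _ _ _).union (cbox_closed _ _ _ _)) hz.1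

lemma flag_lipschitz {l w L : ℝ} (hw : 0 < w) (hwl : w < l) (hL : 0 < L) :
    HasLipschitzBoundary (flag l w L) := by
  intro p hp
  obtain ⟨hp1, hp2⟩ := flag_frontier hp
  rw [mem_flag] at hp2
  have hl : 0 < l := hw.trans hwl
  change Chart (flag l w L) p
  have hx : p.re = 0 ∨ (0 < p.re ∧ p.re < l) ∨ p.re = l ∨ (l < p.re ∧ p.re < l + L) ∨ p.re = l + L := by
    grind
  have hy : p.im = 0 ∨ (0 < p.im ∧ p.im < w) ∨ p.im = w ∨ (w < p.im ∧ p.im < l) ∨ p.im = l := by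
    grind
  have key : p.im = 0 ∧ 0 < p.re ∧ p.re < l + L → Chart (flag l w L) p := by
    rintro ⟨h1, h2, h3⟩
    refine chart_half (U := box 0 (l + L) (-1) w) 0 1 0 (by norm_num) (box_open _ _ _ _)
      ⟨h2, h3, by linarith, by linarith⟩ fun z hz => ?_
    rw [mem_flag]
    obtain ⟨a1, a2, a3, a4⟩ := hz
    grind
  rcases hx with hx | hx | hx | hx | hx
  · rcases hy with hy | hy | hy | hy | hy
    · refine chart_and (U := box (-1) l (-1) w) 1 1 0 0 (Or.inl rfl) (Or.inl rfl) (box_open _ _ _ _)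
        ⟨by linarith, by linarith, by linarith, by linarith⟩ fun z hz => ?_
      rw [mem_flag]
      obtain ⟨a1, a2, a3, a4⟩ := hz
      grind
    · refine chart_half (U := box (-1) l 0 l) 1 0 0 (by norm_num) (box_open _ _ _ _)
        ⟨by linarith, by linarith, by linarith, by linarith⟩ fun z hz => ?_
      rw [mem_flag]
      obtain ⟨a1, a2, a3, a4⟩ := hz
      grind
    · refine chart_half (U := box (-1) l 0 l) 1 0 0 (by norm_num) (box_open _ _ _ _)
        ⟨by linarith, by linarith, by linarith, by linarith⟩ fun z hz => ?_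
      rw [mem_flag]
      obtain ⟨a1, a2, a3, a4⟩ := hz
      grind
    · refine chart_half (U := box (-1) l 0 l) 1 0 0 (by norm_num) (box_open _ _ _ _)
        ⟨by linarith, by linarith, by linarith, by linarith⟩ fun z hz => ?_
      rw [mem_flag]
      obtain ⟨a1, a2, a3, a4⟩ := hz
      grind
    · refine chart_and (U := box (-1) l w (l + 1)) 1 (-1) 0 (-l) (Or.inl rfl) (Or.inr rfl) (box_open _ _ _ _)
        ⟨by linarith, by linarith, by linarith, by linarith⟩ fun z hz => ?_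
      rw [mem_flag]
      obtain ⟨a1, a2, a3, a4⟩ := hz
      grind
  · rcases hy with hy | hy | hy | hy | hy
    · exact key ⟨hy, hx.1, by linarith⟩
    · exfalso; grind
    · exfalso; grind
    · exfalso; grind
    · refine chart_half (U := box 0 l w (l + 1)) 0 (-1) (-l) (by norm_num) (box_open _ _ _ _)
        ⟨by linarith, by linarith, by linarith, by linarith⟩ fun z hz => ?_
      rw [mem_flag]
      obtain ⟨a1, a2, a3, a4⟩ := hz
      grind
  · rcases hy with hy | hy | hy | hy | hy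
    · exact key ⟨hy, by linarith, by linarith⟩
    · exfalso; grind
    · refine chart_or (U := box 0 (l + L) 0 l) (-1) (-1) (-l) (-w) (Or.inr rfl) (Or.inr rfl) (box_open _ _ _ _)
        ⟨by linarith, by linarith, by linarith, by linarith⟩ fun z hz => ?_
      rw [mem_flag]
      obtain ⟨a1, a2, a3, a4⟩ := hz
      grind
    · refine chart_half (U := box 0 (l + L) w l) (-1) 0 (-l) (by norm_num) (box_open _ _ _ _)
        ⟨by linarith, by linarith, by linarith, by linarith⟩ fun z hz => ?_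
      rw [mem_flag]
      obtain ⟨a1, a2, a3, a4⟩ := hz
      grind
    · refine chart_and (U := box 0 (l + L) w (l + 1)) (-1) (-1) (-l) (-l) (Or.inr rfl) (Or.inr rfl) (box_open _ _ _ _)
        ⟨by linarith, by linarith, by linarith, by linarith⟩ fun z hz => ?_
      rw [mem_flag]
      obtain ⟨a1, a2, a3, a4⟩ := hz
      grind
  · rcases hy with hy | hy | hy | hy | hy
    · exact key ⟨hy, by linarith, by linarith⟩
    · exfalso; grind
    · refine chart_half (U := box l (l + L) 0 (w + 1)) 0 (-1) (-w) (by norm_num) (box_open _ _ _ _)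
        ⟨by linarith, by linarith, by linarith, by linarith⟩ fun z hz => ?_
      rw [mem_flag]
      obtain ⟨a1, a2, a3, a4⟩ := hz
      grind
    · exfalso; grind
    · exfalso; grind
  · rcases hy with hy | hy | hy | hy | hy
    · refine chart_and (U := box l (l + L + 1) (-1) w) (-1) 1 (-(l + L)) 0 (Or.inr rfl) (Or.inl rfl) (box_open _ _ _ _)
        ⟨by linarith, by linarith, by linarith, by linarith⟩ fun z hz => ?_
      rw [mem_flag]
      obtain ⟨a1, a2, a3, a4⟩ := hz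
      grind
    · refine chart_half (U := box l (l + L + 1) 0 w) (-1) 0 (-(l + L)) (by norm_num) (box_open _ _ _ _)
        ⟨by linarith, by linarith, by linarith, by linarith⟩ fun z hz => ?_
      rw [mem_flag]
      obtain ⟨a1, a2, a3, a4⟩ := hz
      grind
    · refine chart_and (U := box l (l + L + 1) 0 (w + 1)) (-1) (-1) (-(l + L)) (-w) (Or.inr rfl) (Or.inr rfl) (box_open _ _ _ _)
        ⟨by linarith, by linarith, by linarith, by linarith⟩ fun z hz => ?_
      rw [mem_flag]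
      obtain ⟨a1, a2, a3, a4⟩ := hz
      grind
    · exfalso; grind
    · exfalso; grind




lemma sq_eq_box (l : ℝ) : sq l = box 0 l 0 l := by
  ext z
  simp only [sq, region, box, mem_ofPred_eq, mem_Ioo]
  tauto

lemma region_eq_box (a b c d : ℝ) : region a b (fun _ => c) (fun _ => d) = box a b c d := by
  ext z
  simp only [region, box, mem_ofPred_eq, mem_Ioo]
  tauto

lemma flag_eq (l w L : ℝ) : flag l w L = sq l ∪ region 0 (l + L) (fun _ => 0) (fun _ => w) := by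
  rw [sq_eq_box, region_eq_box]; rfl

lemma flag_ball {l w L : ℝ} (hw : 0 < w) (hwl : w < l) (hL : 0 < L) :
    flag l w L ⊆ Metric.closedBall 0 (2 * l + L) := by
  intro z hz
  rw [mem_closedBall_zero_iff]
  have h := Complex.norm_le_abs_re_add_abs_im z
  rw [mem_flag] at hz
  rw [abs_of_pos (by grind), abs_of_pos (by grind)] at h
  grind

lemma box_convex (a b c d : ℝ) : Convex ℝ (box a b c d) := by
  have : box a b c d = {z : ℂ | a < z.re} ∩ ({z | z.re < b} ∩ ({z | c < z.im} ∩ {z | z.im < d})) := rfl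
  rw [this]
  exact (convex_halfSpace_re_gt a).inter ((convex_halfSpace_re_lt b).inter
    ((convex_halfSpace_im_gt c).inter (convex_halfSpace_im_lt d)))

lemma flag_star {l w L : ℝ} (hw : 0 < w) (hwl : w < l) (hL : 0 < L) :
    ∃ p ∈ flag l w L, StarConvex ℝ p (flag l w L) := by
  have h1 : (⟨w / 2, w / 2⟩ : ℂ) ∈ box 0 l 0 l :=
    ⟨by simp; linarith, by simp; linarith, by simp; linarith, by simp; linarith⟩
  have h2 : (⟨w / 2, w / 2⟩ : ℂ) ∈ box 0 (l + L) 0 w :=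
    ⟨by simp; linarith, by simp; linarith, by simp; linarith, by simp; linarith⟩
  exact ⟨_, Or.inl h1, ((box_convex _ _ _ _).starConvex h1).union ((box_convex _ _ _ _).starConvex h2)⟩

lemma vol_region (a b c d : ℝ) : volume (region a b (fun _ => c) (fun _ => d)) =
    ENNReal.ofReal (d - c) * ENNReal.ofReal (b - a) := by
  have h := lintegral_region a b (fun _ => c) (fun _ => d) measurable_const measurable_const
    (fun _ => 1) measurable_const
  simp only [lintegral_const, one_mul, Measure.restrict_apply_univ, Real.volume_Ioo] at h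
  exact h

lemma vol_flag {l w L : ℝ} (hw : 0 < w) (hwl : w < l) (hL : 0 < L) :
    volume (flag l w L) = ENNReal.ofReal (l ^ 2 + w * L) := by
  have hl : 0 < l := hw.trans hwl
  have h1 : sq l ∩ region 0 (l + L) (fun _ => 0) (fun _ => w) = region 0 l (fun _ => 0) (fun _ => w) := by
    rw [sq_eq_box, region_eq_box, region_eq_box]
    ext z
    simp only [box, mem_inter_iff, mem_ofPred_eq]
    grind
  have h2 := measure_union_add_inter (μ := (volume : Measure ℂ)) (sq l)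
    (region_meas 0 (l + L) (fun _ => 0) (fun _ => w) measurable_const measurable_const)
  rw [h1, ← flag_eq, vol_region, vol_region, vol_sq l hl.le] at h2
  rw [← ENNReal.ofReal_mul (by linarith), ← ENNReal.ofReal_mul (by linarith)] at h2
  have h3 : volume (flag l w L) + ENNReal.ofReal ((w - 0) * (l - 0)) =
      ENNReal.ofReal (l ^ 2 + w * L) + ENNReal.ofReal ((w - 0) * (l - 0)) := by
    rw [h2, ← ENNReal.ofReal_add (by positivity) (by nlinarith), ← ENNReal.ofReal_add (by positivity) (by nlinarith)]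
    congr 1
    ring
  exact (ENNReal.add_left_inj ENNReal.ofReal_ne_top).1 h3

lemma mem_frontier_of {Ω : Set ℂ} {z v : ℂ} {ε : ℝ} (hε : 0 < ε) (h1 : z ∉ Ω)
    (h2 : ∀ t : ℝ, 0 < t → t < ε → z + t * v ∈ Ω) (ho : IsOpen Ω) : z ∈ frontier Ω := by
  rw [ho.frontier_eq]
  refine ⟨?_, h1⟩
  have hc : Tendsto (fun t : ℝ => z + t * v) (𝓝[>] 0) (𝓝 (z + (0:ℝ) * v)) := by
    have : Continuous fun t : ℝ => z + t * v := by fun_prop
    exact (this.tendsto 0).mono_left nhdsWithin_le_nhds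
  rw [Complex.ofReal_zero, zero_mul, add_zero] at hc
  refine mem_closure_of_tendsto hc ?_
  filter_upwards [Ioo_mem_nhdsGT hε] with t ht
  exact h2 t ht.1 ht.2

lemma bottom_mem {l w L : ℝ} (hw : 0 < w) (x : ℝ) (hx : x ∈ Ioo 0 (l + L)) :
    (⟨x, 0⟩ : ℂ) ∈ frontier (flag l w L) := by
  refine mem_frontier_of (v := Complex.I) hw ?_ ?_ (flag_open l w L)
  · rw [mem_flag]; simp
  · intro t ht htw
    rw [mem_flag]
    right
    simp only [Complex.add_re, Complex.mul_re, Complex.ofReal_re, Complex.I_re, Complex.ofReal_im,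
      Complex.I_im, Complex.add_im, Complex.mul_im]
    refine ⟨by linarith [hx.1], by linarith [hx.2], by linarith, by linarith⟩

lemma seg_h {R c : ℝ} (hR : 0 < R) {z : ℂ} (h1 : 0 ≤ z.re) (h2 : z.re ≤ R) (h3 : z.im = c) :
    z ∈ segment ℝ (⟨0, c⟩ : ℂ) ⟨R, c⟩ := by
  refine ⟨1 - z.re / R, z.re / R, ?_, by positivity, by ring, ?_⟩
  · rw [sub_nonneg, div_le_one hR]; exact h2
  · apply Complex.ext
    · simp; field_simp
    · simp [h3]; ring

lemma seg_v {R c : ℝ} (hR : 0 < R) {z : ℂ} (h1 : 0 ≤ z.im) (h2 : z.im ≤ R) (h3 : z.re = c) :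
    z ∈ segment ℝ (⟨c, 0⟩ : ℂ) ⟨c, R⟩ := by
  refine ⟨1 - z.im / R, z.im / R, ?_, by positivity, by ring, ?_⟩
  · rw [sub_nonneg, div_le_one hR]; exact h2
  · apply Complex.ext
    · simp [h3]; ring
    · simp; field_simp

lemma meas_seg_h {R c : ℝ} (hR : 0 < R) :
    (Measure.hausdorffMeasure 1 : Measure ℂ) (segment ℝ (⟨0, c⟩ : ℂ) ⟨R, c⟩) = ENNReal.ofReal R := by
  have h : dist (⟨0, c⟩ : ℂ) ⟨R, c⟩ = dist (0:ℝ) R := Complex.dist_of_im_eq rfl
  rw [hausdorffMeasure_segment, edist_dist, h, Real.dist_eq]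
  congr 1
  simp [abs_of_pos hR]

lemma meas_seg_v {R c : ℝ} (hR : 0 < R) :
    (Measure.hausdorffMeasure 1 : Measure ℂ) (segment ℝ (⟨c, 0⟩ : ℂ) ⟨c, R⟩) = ENNReal.ofReal R := by
  have h : dist (⟨c, 0⟩ : ℂ) ⟨c, R⟩ = dist (0:ℝ) R := Complex.dist_of_re_eq rfl
  rw [hausdorffMeasure_segment, edist_dist, h, Real.dist_eq]
  congr 1
  simp [abs_of_pos hR]

lemma frontier_meas {l w L R : ℝ} (hw : 0 < w) (hwl : w < l) (hL : 0 < L) (hR : l ≤ R) :
    (Measure.hausdorffMeasure 1 : Measure ℂ) (frontier (flag l w L) ∩ {z | z.re ≤ R}) ≤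
      ENNReal.ofReal (4 * l + 2 * R) := by
  have hl : 0 < l := hw.trans hwl
  have hR0 : 0 < R := by linarith
  have hsub : frontier (flag l w L) ∩ {z | z.re ≤ R} ⊆
      segment ℝ (⟨0, 0⟩ : ℂ) ⟨0, l⟩ ∪ (segment ℝ (⟨l, 0⟩ : ℂ) ⟨l, l⟩ ∪ (segment ℝ (⟨l + L, 0⟩ : ℂ) ⟨l + L, w⟩ ∪
      (segment ℝ (⟨0, l⟩ : ℂ) ⟨l, l⟩ ∪ (segment ℝ (⟨0, 0⟩ : ℂ) ⟨R, 0⟩ ∪ segment ℝ (⟨0, w⟩ : ℂ) ⟨R, w⟩)))) := by
    rintro z ⟨hz, hzR⟩
    obtain ⟨h1, h2⟩ := flag_frontier hz
    rw [mem_flag] at h2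
    have hzR : z.re ≤ R := hzR
    have hc : (z.re = 0 ∧ 0 ≤ z.im ∧ z.im ≤ l) ∨ (z.re = l ∧ 0 ≤ z.im ∧ z.im ≤ l) ∨
        (z.re = l + L ∧ 0 ≤ z.im ∧ z.im ≤ w) ∨ (z.im = l ∧ 0 ≤ z.re ∧ z.re ≤ l) ∨
        (z.im = 0 ∧ 0 ≤ z.re ∧ z.re ≤ R) ∨ (z.im = w ∧ 0 ≤ z.re ∧ z.re ≤ R) := by
      grind
    rcases hc with h | h | h | h | h | h
    · exact Or.inl (seg_v hl h.2.1 h.2.2 h.1)
    · exact Or.inr (Or.inl (seg_v hl h.2.1 h.2.2 h.1))
    · exact Or.inr (Or.inr (Or.inl (seg_v hw h.2.1 h.2.2 h.1)))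
    · exact Or.inr (Or.inr (Or.inr (Or.inl (seg_h hl h.2.1 h.2.2 h.1))))
    · exact Or.inr (Or.inr (Or.inr (Or.inr (Or.inl (seg_h hR0 h.2.1 h.2.2 h.1)))))
    · exact Or.inr (Or.inr (Or.inr (Or.inr (Or.inr (seg_h hR0 h.2.1 h.2.2 h.1)))))
  refine (measure_mono hsub).trans ?_
  refine (measure_union_le _ _).trans ?_
  rw [meas_seg_v hl]
  refine (add_le_add le_rfl (measure_union_le _ _)).trans ?_
  rw [meas_seg_v hl]
  refine (add_le_add le_rfl (add_le_add le_rfl (measure_union_le _ _))).trans ?_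
  rw [meas_seg_v hw]
  refine (add_le_add le_rfl (add_le_add le_rfl (add_le_add le_rfl (measure_union_le _ _)))).trans ?_
  rw [meas_seg_h hl]
  refine (add_le_add le_rfl (add_le_add le_rfl (add_le_add le_rfl (add_le_add le_rfl (measure_union_le _ _))))).trans ?_
  rw [meas_seg_h hR0, meas_seg_h hR0]
  rw [← ENNReal.ofReal_add (by positivity) (by positivity), ← ENNReal.ofReal_add (by positivity) (by positivity),
    ← ENNReal.ofReal_add (by positivity) (by positivity), ← ENNReal.ofReal_add (by positivity) (by positivity),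
    ← ENNReal.ofReal_add (by positivity) (by positivity)]
  apply ENNReal.ofReal_le_ofReal
  linarith

lemma frontier_fin {l w L : ℝ} (hw : 0 < w) (hwl : w < l) (hL : 0 < L) :
    (Measure.hausdorffMeasure 1 : Measure ℂ) (frontier (flag l w L)) < ∞ := by
  refine lt_of_le_of_lt (measure_mono ?_)
    ((frontier_meas hw hwl hL (R := l + L) (by linarith)).trans_lt ENNReal.ofReal_lt_top)
  intro z hz
  refine ⟨hz, ?_⟩
  obtain ⟨h1, -⟩ := flag_frontier hz
  change z.re ≤ l + L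
  grind

lemma flag_meas (l w L : ℝ) : MeasurableSet (flag l w L) := (flag_open l w L).measurableSet

lemma frontier_meas_set (Ω : Set ℂ) : MeasurableSet (frontier Ω) := isClosed_frontier.measurableSet

/-- the mean functional on the flag -/
lemma exists_meanFunctional {l w L : ℝ} (hw : 0 < w) (hwl : w < l) :
    ∃ F : Lp ℝ 2 (volume.restrict (flag l w L)) →L[ℝ] ℝ,
      ∀ (v : Lp ℝ 2 (volume.restrict (flag l w L))) (φ : ℂ → ℝ),
      v =ᵐ[volume.restrict (flag l w L)] φ → F v = ∫ z in sq l, φ z := by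
  have hl : 0 < l := hw.trans hwl
  have hsub : sq l ⊆ flag l w L := by rw [flag_eq]; exact subset_union_left
  have hne : (volume.restrict (flag l w L)) (sq l) ≠ ∞ := by
    rw [Measure.restrict_apply (sq_meas l), inter_eq_left.2 hsub, vol_sq l hl.le]
    exact ENNReal.ofReal_ne_top
  refine ⟨innerSL ℝ (indicatorConstLp 2 (sq_meas l) hne (1:ℝ)), ?_⟩
  intro v φ hv
  have h1 := L2.inner_indicatorConstLp_one (𝕜 := ℝ) (sq_meas l) hne v
  change inner ℝ (indicatorConstLp 2 (sq_meas l) hne (1:ℝ)) v = _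
  rw [h1, Measure.restrict_restrict (sq_meas l), inter_eq_left.2 hsub]
  refine integral_congr_ae ?_
  exact (Measure.absolutelyContinuous_of_le (Measure.restrict_mono hsub le_rfl)).ae_le hv

lemma flag_strips {l w L : ℝ} (hw : 0 < w) (hL : 0 < L) (φ : ℂ → ℝ)
    (hφ : ContDiff ℝ 1 φ) :
    (∫⁻ z in sq l, ‖φ z‖ₑ ^ 2 ≤
      ENNReal.ofReal (2 * l) * (∫⁻ z in frontier (flag l w L), ‖φ z‖ₑ ^ 2 ∂(Measure.hausdorffMeasure 1)) +
      ENNReal.ofReal (2 * l ^ 2) * ∫⁻ z in sq l, ‖grad φ z‖ₑ ^ 2) ∧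
    (∫⁻ z in region 0 (l + L) (fun _ => 0) (fun _ => w), ‖φ z‖ₑ ^ 2 ≤
      ENNReal.ofReal (2 * w) * (∫⁻ z in frontier (flag l w L), ‖φ z‖ₑ ^ 2 ∂(Measure.hausdorffMeasure 1)) +
      ENNReal.ofReal (2 * w ^ 2) * ∫⁻ z in region 0 (l + L) (fun _ => 0) (fun _ => w), ‖grad φ z‖ₑ ^ 2) := by
  constructor
  · exact strip φ hφ 0 l _ _ measurable_const measurable_const l (fun x _ => by simp) _
      (frontier_meas_set _) (fun x hx => bottom_mem hw x ⟨hx.1, by linarith [hx.2]⟩)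
  · exact strip φ hφ 0 (l + L) _ _ measurable_const measurable_const w (fun x _ => by simp) _
      (frontier_meas_set _) (fun x hx => bottom_mem hw x hx)

lemma lintegral_flag_le {l w L : ℝ} (g : ℂ → ℝ≥0∞) :
    ∫⁻ z in flag l w L, g z ≤ (∫⁻ z in sq l, g z) +
      ∫⁻ z in region 0 (l + L) (fun _ => 0) (fun _ => w), g z := by
  rw [flag_eq]
  exact lintegral_union_le _ _ _

/-- from an integrated inequality to an eigenvalue bound -/
lemma scale_ineq {X G B : ℝ≥0∞} {a b Λ β : ℝ} (hΛ : 0 ≤ Λ)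
    (h : X ≤ ENNReal.ofReal a * G + ENNReal.ofReal b * B) (h1 : Λ * a ≤ 1) (h2 : Λ * b ≤ β) :
    ENNReal.ofReal Λ * X ≤ G + ENNReal.ofReal β * B := by
  calc ENNReal.ofReal Λ * X ≤ ENNReal.ofReal Λ * (ENNReal.ofReal a * G + ENNReal.ofReal b * B) := by gcongr
    _ = ENNReal.ofReal (Λ * a) * G + ENNReal.ofReal (Λ * b) * B := by
        rw [ENNReal.ofReal_mul hΛ, ENNReal.ofReal_mul hΛ]; ring
    _ ≤ ENNReal.ofReal 1 * G + ENNReal.ofReal β * B :=
        add_le_add (mul_le_mul' (ENNReal.ofReal_le_ofReal h1) le_rfl)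
          (mul_le_mul' (ENNReal.ofReal_le_ofReal h2) le_rfl)
    _ = _ := by rw [ENNReal.ofReal_one, one_mul]

/-- the first eigenvalue of the flag is positive -/
lemma flag_nu_one_pos {β : ℝ} (hβ : 0 < β) {l w L : ℝ} (hw : 0 < w) (hwl : w < l) (hL : 0 < L) :
    0 < nu β (flag l w L) 1 := by
  have hl : 0 < l := hw.trans hwl
  have hsub1 : sq l ⊆ flag l w L := by rw [flag_eq]; exact subset_union_left
  have hsub2 : region 0 (l + L) (fun _ => 0) (fun _ => w) ⊆ flag l w L := by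
    rw [flag_eq]; exact subset_union_right
  have key : ∀ v ∈ H1 (flag l w L), nsq (volume.restrict (flag l w L)) v.1 ≤
      ENNReal.ofReal (4 * l ^ 2) * nsq (volume.restrict (flag l w L)) v.2.1 +
      ENNReal.ofReal (4 * l) * nsq (bdry (flag l w L)) v.2.2 := by
    intro v hv
    have := transfer (Ω := flag l w L) 0 (4 * l ^ 2) (4 * l) 0 (by positivity) (by positivity) le_rfl ?_ v hv
    · simpa using this
    · intro u φ hφ _
      obtain ⟨s1, s2⟩ := flag_strips hw hL φ hφ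
      set B := ∫⁻ z in frontier (flag l w L), ‖φ z‖ₑ ^ 2 ∂(Measure.hausdorffMeasure 1)
      set G := ∫⁻ z in flag l w L, ‖grad φ z‖ₑ ^ 2
      have g1 : ∫⁻ z in sq l, ‖grad φ z‖ₑ ^ 2 ≤ G := lintegral_mono_set hsub1
      have g2 : ∫⁻ z in region 0 (l + L) (fun _ => 0) (fun _ => w), ‖grad φ z‖ₑ ^ 2 ≤ G :=
        lintegral_mono_set hsub2
      calc ∫⁻ z in flag l w L, ‖φ z‖ₑ ^ 2
          ≤ (ENNReal.ofReal (2 * l) * B + ENNReal.ofReal (2 * l ^ 2) * G) +
            (ENNReal.ofReal (2 * l) * B + ENNReal.ofReal (2 * l ^ 2) * G) := by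
            refine (lintegral_flag_le _).trans (add_le_add (s1.trans ?_) (s2.trans ?_))
            · gcongr
            · gcongr
        _ = ENNReal.ofReal (4 * l ^ 2) * G + ENNReal.ofReal (4 * l) * B +
            ENNReal.ofReal (0 * ((0 : Lp ℝ 2 (volume.restrict (flag l w L)) →L[ℝ] ℝ) u) ^ 2) := by
            rw [show 4 * l ^ 2 = 2 * l ^ 2 + 2 * l ^ 2 by ring, show 4 * l = 2 * l + 2 * l by ring,
              ENNReal.ofReal_add (by positivity) (by positivity),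
              ENNReal.ofReal_add (by positivity) (by positivity)]
            simp only [zero_mul, ENNReal.ofReal_zero, add_zero]
            ring
  have h := le_nu_one (β := β) (Ω := flag l w L) (min (1 / (4 * l ^ 2)) (β / (4 * l))) ?_
  · refine lt_of_lt_of_le ?_ h
    rw [ENNReal.ofReal_pos]
    positivity
  · intro v hv
    refine scale_ineq (by positivity) (key v hv) ?_ ?_
    · have := min_le_left (1 / (4 * l ^ 2)) (β / (4 * l))
      rwa [le_div_iff₀ (by positivity)] at this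
    · have := min_le_right (1 / (4 * l ^ 2)) (β / (4 * l))
      rwa [le_div_iff₀ (by positivity)] at this

/-- the second eigenvalue of the flag is at least `1 / (4 l²)` when the tail is thin -/
lemma flag_nu_two_ge {β : ℝ} (hβ : 0 < β) {l w L : ℝ} (hw : 0 < w) (hwl : w < l) (hL : 0 < L)
    (hwβ : w ≤ 2 * l ^ 2 * β) : ENNReal.ofReal (1 / (4 * l ^ 2)) ≤ nu β (flag l w L) 2 := by
  have hl : 0 < l := hw.trans hwl
  have hsub1 : sq l ⊆ flag l w L := by rw [flag_eq]; exact subset_union_left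
  have hsub2 : region 0 (l + L) (fun _ => 0) (fun _ => w) ⊆ flag l w L := by
    rw [flag_eq]; exact subset_union_right
  obtain ⟨F, hF⟩ := exists_meanFunctional (L := L) hw hwl
  refine le_nu_two _ F ?_
  intro v hv hFv
  have key := transfer (Ω := flag l w L) F (4 * l ^ 2) (4 * l ^ 2 * β) (1 / l ^ 2) (by positivity) (by positivity)
      (by positivity) ?_ v hv
  · rw [hFv] at key
    simp only [ne_eq, OfNat.ofNat_ne_zero, not_false_eq_true, zero_pow, mul_zero, ENNReal.ofReal_zero,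
      add_zero] at key
    refine scale_ineq (by positivity) key (le_of_eq ?_) (le_of_eq ?_)
    · field_simp
    · field_simp
  · intro u φ hφ hv1
    obtain ⟨-, s2⟩ := flag_strips hw hL φ hφ
    have s1 := poincare φ hφ l hl
    rw [← hF u φ hv1] at s1
    set B := ∫⁻ z in frontier (flag l w L), ‖φ z‖ₑ ^ 2 ∂(Measure.hausdorffMeasure 1)
    set G := ∫⁻ z in flag l w L, ‖grad φ z‖ₑ ^ 2
    have g1 : ∫⁻ z in sq l, ‖grad φ z‖ₑ ^ 2 ≤ G := lintegral_mono_set hsub1
    have g2 : ∫⁻ z in region 0 (l + L) (fun _ => 0) (fun _ => w), ‖grad φ z‖ₑ ^ 2 ≤ G :=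
      lintegral_mono_set hsub2
    have s3 : ∫⁻ z in sq l, ‖φ z‖ₑ ^ 2 ≤ ENNReal.ofReal (2 * l ^ 2) * G +
        ENNReal.ofReal (1 / l ^ 2 * (F u) ^ 2) := by
      have hpos : (0:ℝ) < 2 * l ^ 2 := by positivity
      have h4 : ENNReal.ofReal (2 * l ^ 2) * (∫⁻ z in sq l, ‖φ z‖ₑ ^ 2) ≤
          ENNReal.ofReal (2 * l ^ 2) * (ENNReal.ofReal (2 * l ^ 2) * G +
            ENNReal.ofReal (1 / l ^ 2 * (F u) ^ 2)) := by
        refine s1.trans ?_
        rw [mul_add, ← mul_assoc, ← ENNReal.ofReal_mul hpos.le, ← ENNReal.ofReal_mul hpos.le,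
          show 2 * l ^ 2 * (2 * l ^ 2) = 4 * l ^ 4 by ring,
          show 2 * l ^ 2 * (1 / l ^ 2 * (F u) ^ 2) = 2 * (F u) ^ 2 by field_simp]
        gcongr
      rwa [ENNReal.mul_le_mul_iff_right (by rw [Ne, ENNReal.ofReal_eq_zero]; linarith) ENNReal.ofReal_ne_top] at h4
    calc ∫⁻ z in flag l w L, ‖φ z‖ₑ ^ 2
        ≤ (ENNReal.ofReal (2 * l ^ 2) * G + ENNReal.ofReal (1 / l ^ 2 * (F u) ^ 2)) +
          (ENNReal.ofReal (4 * l ^ 2 * β) * B + ENNReal.ofReal (2 * l ^ 2) * G) := by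
          refine (lintegral_flag_le _).trans (add_le_add s3 (s2.trans ?_))
          exact add_le_add (mul_le_mul' (ENNReal.ofReal_le_ofReal (by nlinarith)) le_rfl)
            (mul_le_mul' (ENNReal.ofReal_le_ofReal (by nlinarith)) g2)
      _ = ENNReal.ofReal (4 * l ^ 2) * G + ENNReal.ofReal (4 * l ^ 2 * β) * B +
          ENNReal.ofReal (1 / l ^ 2 * (F u) ^ 2) := by
          rw [show 4 * l ^ 2 = 2 * l ^ 2 + 2 * l ^ 2 by ring,
            ENNReal.ofReal_add (by positivity) (by positivity)]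
          ring

/-- upper bound for the first eigenvalue of the flag -/
lemma flag_nu_one_le : ∃ C : ℝ, 0 < C ∧ ∀ (β : ℝ), 0 < β → ∀ l w L : ℝ, 0 < w → w < l → l < L →
    nu β (flag l w L) 1 ≤ ENNReal.ofReal ((C * w / l + 8 * β * l) / l ^ 2) := by
  have hcd : ContDiff ℝ 1 Real.smoothTransition := Real.smoothTransition.contDiff
  have hdc : Continuous (deriv Real.smoothTransition) := hcd.continuous_deriv (by norm_num)
  obtain ⟨C0, hC0⟩ := (isCompact_Icc (a := (0:ℝ)) (b := 1)).exists_bound_of_continuousOn hdc.continuousOn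
  have hd1 : ∀ t : ℝ, t < 0 → deriv Real.smoothTransition t = 0 := by
    intro t ht
    have : Real.smoothTransition =ᶠ[𝓝 t] fun _ => 0 := by
      filter_upwards [Iio_mem_nhds ht] with x hx
      exact Real.smoothTransition.zero_of_nonpos hx.le
    rw [this.deriv_eq, deriv_const]
  have hd2 : ∀ t : ℝ, 1 < t → deriv Real.smoothTransition t = 0 := by
    intro t ht
    have : Real.smoothTransition =ᶠ[𝓝 t] fun _ => 1 := by
      filter_upwards [Ioi_mem_nhds ht] with x hx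
      exact Real.smoothTransition.one_of_one_le hx.le
    rw [this.deriv_eq, deriv_const]
  have hC0' : 0 ≤ C0 := (norm_nonneg _).trans (hC0 0 (by simp))
  have hCall : ∀ t, ‖deriv Real.smoothTransition t‖ ≤ C0 := by
    intro t
    by_cases h1 : t < 0
    · rw [hd1 t h1, norm_zero]; exact hC0'
    · by_cases h2 : 1 < t
      · rw [hd2 t h2, norm_zero]; exact hC0'
      · exact hC0 t ⟨not_lt.1 h1, not_lt.1 h2⟩
  refine ⟨C0 ^ 2 + 1, by positivity, ?_⟩
  intro β hβ l w L hw hwl hlL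
  have hl : 0 < l := hw.trans hwl
  have hL : 0 < L := hl.trans hlL
  set φ : ℂ → ℝ := fun z => Real.smoothTransition (2 - z.re / l) with hφdef
  have hre : ContDiff ℝ 1 Complex.re := Complex.reCLM.contDiff
  have hφ : ContDiff ℝ 1 φ := hcd.comp (contDiff_const.sub (hre.div_const l))
  have hfd : ∀ z, fderiv ℝ φ z = (deriv Real.smoothTransition (2 - z.re / l) * (-(1 / l))) • Complex.reCLM := by
    intro z
    have e1 : HasDerivAt Real.smoothTransition (deriv Real.smoothTransition (2 - z.re / l)) (2 - z.re / l) :=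
      (hcd.differentiable (by norm_num) _).hasDerivAt
    have e2 : HasFDerivAt (fun z : ℂ => 2 - z.re / l) (-((1 / l) • Complex.reCLM)) z := by
      have : HasFDerivAt (fun z : ℂ => z.re) Complex.reCLM z := Complex.reCLM.hasFDerivAt
      have h3 := (this.const_smul (1 / l)).const_sub 2
      refine h3.congr_of_eventuallyEq (Eventually.of_forall fun z => ?_)
      simp only [Pi.smul_apply, smul_eq_mul]
      ring
    have e3 := e1.comp_hasFDerivAt z e2
    have e4 : fderiv ℝ φ z = deriv Real.smoothTransition (2 - z.re / l) • -((1 / l) • Complex.reCLM) :=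
      e3.fderiv
    rw [e4]
    ext v
    simp
    ring
  have hgr : ∀ z, grad φ z = ((deriv Real.smoothTransition (2 - z.re / l) * (-(1 / l)) : ℝ) : ℂ) := by
    intro z
    rw [grad, hfd]
    apply Complex.ext <;> simp
  have hnorm : ∀ z, ‖grad φ z‖ ≤ C0 / l := by
    intro z
    rw [hgr, Complex.norm_real, norm_mul, norm_neg, Real.norm_of_nonneg (by positivity : 0 ≤ 1 / l)]
    rw [div_eq_mul_one_div C0 l]
    gcongr
    exact hCall _
  have hz1 : ∀ z : ℂ, z.re < l → grad φ z = 0 := by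
    intro z hz
    have : z.re / l < 1 := by rwa [div_lt_one hl]
    rw [hgr, hd2 _ (by linarith)]; simp
  have hz2 : ∀ z : ℂ, 2 * l < z.re → grad φ z = 0 := by
    intro z hz
    have : 2 < z.re / l := by rw [lt_div_iff₀ hl]; exact hz
    rw [hgr, hd1 _ (by linarith)]; simp
  have hone : ∀ z : ℂ, z.re ≤ l → φ z = 1 := by
    intro z hz
    have : z.re / l ≤ 1 := by rwa [div_le_one hl]
    exact Real.smoothTransition.one_of_one_le (by linarith)
  have hzero : ∀ z : ℂ, 2 * l < z.re → φ z = 0 := by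
    intro z hz
    have : 2 < z.re / l := by rw [lt_div_iff₀ hl]; exact hz
    exact Real.smoothTransition.zero_of_nonpos (by linarith)
  have hle1 : ∀ z, ‖φ z‖ₑ ≤ 1 := by
    intro z
    rw [← ofReal_norm, Real.norm_of_nonneg (Real.smoothTransition.nonneg _), ← ENNReal.ofReal_one]
    exact ENNReal.ofReal_le_ofReal (Real.smoothTransition.le_one _)
  have hsub1 : sq l ⊆ flag l w L := by rw [flag_eq]; exact subset_union_left
  -- mass
  have m1 : ENNReal.ofReal (l ^ 2) ≤ nsq (volume.restrict (flag l w L)) φ := by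
    calc ENNReal.ofReal (l ^ 2) = ∫⁻ z in sq l, 1 := by
          rw [setLIntegral_const, one_mul, vol_sq l hl.le]
      _ ≤ ∫⁻ z in sq l, ‖φ z‖ₑ ^ 2 := by
          refine setLIntegral_mono' (sq_meas l) fun z hz => ?_
          rw [hone z hz.1.2.le]; simp
      _ ≤ _ := lintegral_mono_set hsub1
  -- boundary term
  have m3 : nsq (bdry (flag l w L)) φ ≤ ENNReal.ofReal (8 * l) := by
    have hms : MeasurableSet {z : ℂ | z.re ≤ 2 * l} := Complex.measurable_re measurableSet_Iic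
    calc ∫⁻ z in frontier (flag l w L), ‖φ z‖ₑ ^ 2 ∂(Measure.hausdorffMeasure 1)
        ≤ ∫⁻ z in frontier (flag l w L), ({z : ℂ | z.re ≤ 2 * l}).indicator (fun _ => 1) z
            ∂(Measure.hausdorffMeasure 1) := by
          refine lintegral_mono fun z => ?_
          by_cases hz : z.re ≤ 2 * l
          · rw [indicator_of_mem (show z ∈ {z : ℂ | z.re ≤ 2 * l} from hz)]
            have := hle1 z
            calc ‖φ z‖ₑ ^ 2 ≤ 1 ^ 2 := by gcongr
              _ = 1 := one_pow 2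
          · rw [indicator_of_notMem (show z ∉ {z : ℂ | z.re ≤ 2 * l} from hz), hzero z (not_le.1 hz)]
            simp
      _ = (Measure.hausdorffMeasure 1 : Measure ℂ) (frontier (flag l w L) ∩ {z | z.re ≤ 2 * l}) := by
          rw [lintegral_indicator hms, setLIntegral_const, one_mul, Measure.restrict_apply hms,
            inter_comm]
      _ ≤ ENNReal.ofReal (4 * l + 2 * (2 * l)) := frontier_meas hw hwl hL (by linarith)
      _ = _ := by congr 1; ring
  -- gradient term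
  have m2 : nsq (volume.restrict (flag l w L)) (grad φ) ≤ ENNReal.ofReal ((C0 ^ 2 + 1) * w / l) := by
    have hm2 : Measurable fun z => ‖grad φ z‖ₑ ^ 2 :=
      ((cont_grad φ hφ).enorm.measurable).pow_const 2
    have hb : ∀ z, ‖grad φ z‖ₑ ^ 2 ≤ ENNReal.ofReal ((C0 / l) ^ 2) := by
      intro z
      rw [← ofReal_norm, ← ENNReal.ofReal_pow (norm_nonneg _)]
      apply ENNReal.ofReal_le_ofReal
      have := hnorm z
      gcongr
    calc ∫⁻ z in flag l w L, ‖grad φ z‖ₑ ^ 2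
        ≤ (∫⁻ z in sq l, ‖grad φ z‖ₑ ^ 2) +
          ∫⁻ z in region 0 (l + L) (fun _ => 0) (fun _ => w), ‖grad φ z‖ₑ ^ 2 := lintegral_flag_le _
      _ ≤ 0 + ∫⁻ x : ℝ, (Icc l (2 * l)).indicator (fun _ => ENNReal.ofReal ((C0 / l) ^ 2) * ENNReal.ofReal w) x := by
          refine add_le_add ?_ ?_
          · refine le_of_eq ?_
            rw [← lintegral_zero (μ := volume.restrict (sq l))]
            refine setLIntegral_congr_fun (sq_meas l) fun z hz => ?_
            simp only [hz1 z hz.1.2]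
            rw [enorm_zero]; simp
          · rw [lintegral_region 0 (l + L) _ _ measurable_const measurable_const _ hm2]
            refine (setLIntegral_le_lintegral _ _).trans (lintegral_mono fun x => ?_)
            by_cases hx : x ∈ Icc l (2 * l)
            · rw [indicator_of_mem hx]
              refine (lintegral_mono fun y => hb _).trans ?_
              rw [setLIntegral_const, Real.volume_Ioo, sub_zero]
            · rw [indicator_of_notMem hx]
              refine le_of_eq ?_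
              rw [← lintegral_zero (μ := volume.restrict (Ioo 0 w))]
              refine lintegral_congr fun y => ?_
              have : grad φ ⟨x, y⟩ = 0 := by
                rcases lt_or_ge x l with h | h
                · exact hz1 _ h
                · exact hz2 _ (by
                    have : ¬ x ≤ 2 * l := fun h5 => hx ⟨h, h5⟩
                    exact not_le.1 this)
              rw [this, enorm_zero]; simp
      _ = ENNReal.ofReal (C0 ^ 2 * w / l) := by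
          rw [zero_add, lintegral_indicator measurableSet_Icc, setLIntegral_const, Real.volume_Icc,
            ← ENNReal.ofReal_mul (by positivity), ← ENNReal.ofReal_mul (by positivity)]
          congr 1
          field_simp
          ring
      _ ≤ _ := by
          apply ENNReal.ofReal_le_ofReal
          gcongr
          linarith
  have hl2 : 0 < l ^ 2 := by positivity
  have hne : nsq (volume.restrict (flag l w L)) φ ≠ 0 := by
    intro h
    rw [h, nonpos_iff_eq_zero, ENNReal.ofReal_eq_zero] at m1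
    linarith
  refine (nu_one_le (flag_ball hw hwl hL) (frontier_fin hw hwl hL) φ hφ hne).trans ?_
  rw [ENNReal.ofReal_div_of_pos hl2, rayleigh]
  refine ENNReal.div_le_div ?_ m1
  rw [ENNReal.ofReal_add (by positivity) (by positivity)]
  refine add_le_add m2 ?_
  calc ENNReal.ofReal β * nsq (bdry (flag l w L)) φ ≤ ENNReal.ofReal β * ENNReal.ofReal (8 * l) := by gcongr
    _ = ENNReal.ofReal (8 * β * l) := by rw [← ENNReal.ofReal_mul hβ.le]; congr 1; ring





lemma ball_eq_region (R : ℝ) : Metric.ball (0:ℂ) R =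
    region (-R) R (fun x => -√(R ^ 2 - x ^ 2)) (fun x => √(R ^ 2 - x ^ 2)) := by
  ext z
  rw [mem_ball_zero_iff]
  constructor
  · intro hz
    have hR : 0 < R := (norm_nonneg _).trans_lt hz
    have h1 := Complex.abs_re_le_norm z
    have h2 : ‖z‖ ^ 2 < R ^ 2 := by gcongr
    rw [← Complex.normSq_eq_norm_sq, Complex.normSq_apply] at h2
    refine ⟨⟨?_, ?_⟩, ?_⟩
    · have := neg_abs_le z.re
      linarith
    · have := le_abs_self z.re
      linarith
    · have h3 : z.im ^ 2 < R ^ 2 - z.re ^ 2 := by nlinarith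
      exact Real.sq_lt.1 h3
  · rintro ⟨h1, h2⟩
    have h3 : z.im ^ 2 < R ^ 2 - z.re ^ 2 := Real.sq_lt.2 h2
    have hR : 0 < R := by linarith [h1.1, h1.2]
    have h4 : ‖z‖ ^ 2 < R ^ 2 := by
      rw [← Complex.normSq_eq_norm_sq, Complex.normSq_apply]; nlinarith
    exact lt_of_pow_lt_pow_left₀ 2 hR.le h4

lemma sphere_fin (R : ℝ) (hR : 0 < R) :
    (Measure.hausdorffMeasure 1 : Measure ℂ) (frontier (Metric.ball (0:ℂ) R)) < ∞ := by
  rw [frontier_ball _ hR.ne']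
  have h1 : Metric.sphere (0:ℂ) R = circleMap 0 R '' Ioc 0 (2 * Real.pi) := by
    rw [image_circleMap_Ioc, abs_of_pos hR]
  rw [h1]
  refine lt_of_le_of_lt ((lipschitzWith_circleMap 0 R).hausdorffMeasure_image_le zero_le_one _) ?_
  rw [hausdorffMeasure_real, Real.volume_Ioc]
  exact ENNReal.mul_lt_top (by simp) ENNReal.ofReal_lt_top

lemma disk_key {R : ℝ} (hR : 0 < R) : ∀ v ∈ H1 (Metric.ball (0:ℂ) R),
    nsq (volume.restrict (Metric.ball (0:ℂ) R)) v.1 ≤
      ENNReal.ofReal (8 * R ^ 2) * nsq (volume.restrict (Metric.ball (0:ℂ) R)) v.2.1 +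
      ENNReal.ofReal (4 * R) * nsq (bdry (Metric.ball (0:ℂ) R)) v.2.2 := by
  intro v hv
  have hs : Continuous fun x : ℝ => √(R ^ 2 - x ^ 2) := by fun_prop
  have := transfer (Ω := Metric.ball (0:ℂ) R) 0 (8 * R ^ 2) (4 * R) 0 (by positivity) (by positivity)
    le_rfl ?_ v hv
  · simpa using this
  · intro u φ hφ _
    have h := strip φ hφ (-R) R (fun x => -√(R ^ 2 - x ^ 2)) (fun x => √(R ^ 2 - x ^ 2))
      hs.neg.measurable hs.measurable (2 * R) ?_ (frontier (Metric.ball (0:ℂ) R))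
      (frontier_meas_set _) ?_
    · rw [← ball_eq_region] at h
      refine h.trans (le_of_eq ?_)
      rw [show 2 * (2 * R) ^ 2 = 8 * R ^ 2 by ring, show 2 * (2 * R) = 4 * R by ring]
      simp only [zero_mul, ENNReal.ofReal_zero, add_zero]
      rw [add_comm]
    · intro x hx
      have : √(R ^ 2 - x ^ 2) ≤ R := by
        rw [Real.sqrt_le_left hR.le]
        nlinarith [sq_nonneg x]
      linarith
    · intro x hx
      rw [frontier_ball _ hR.ne', mem_sphere_zero_iff_norm]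
      have h0 : 0 ≤ R ^ 2 - x ^ 2 := by nlinarith [hx.1, hx.2]
      have h1 : ‖(⟨x, -√(R ^ 2 - x ^ 2)⟩ : ℂ)‖ ^ 2 = R ^ 2 := by
        rw [← Complex.normSq_eq_norm_sq, Complex.normSq_mk]
        have := Real.mul_self_sqrt h0
        nlinarith
      have h2 : 0 ≤ ‖(⟨x, -√(R ^ 2 - x ^ 2)⟩ : ℂ)‖ := norm_nonneg _
      exact (pow_left_inj₀ h2 hR.le two_ne_zero).1 h1

lemma disk_nu_one_pos {β : ℝ} (hβ : 0 < β) {R : ℝ} (hR : 0 < R) :
    0 < nu β (Metric.ball (0:ℂ) R) 1 := by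
  have h := le_nu_one (β := β) (Ω := Metric.ball (0:ℂ) R) (min (1 / (8 * R ^ 2)) (β / (4 * R))) ?_
  · refine lt_of_lt_of_le ?_ h
    rw [ENNReal.ofReal_pos]
    positivity
  · intro v hv
    refine scale_ineq (by positivity) (disk_key hR v hv) ?_ ?_
    · have := min_le_left (1 / (8 * R ^ 2)) (β / (4 * R))
      rwa [le_div_iff₀ (by positivity)] at this
    · have := min_le_right (1 / (8 * R ^ 2)) (β / (4 * R))
      rwa [le_div_iff₀ (by positivity)] at this

/-- finiteness of the first eigenvalue -/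
lemma nu_one_lt_top {β : ℝ} {Ω : Set ℂ} {r : ℝ} (hb : Ω ⊆ Metric.closedBall 0 r)
    (hfin : (Measure.hausdorffMeasure 1 : Measure ℂ) (frontier Ω) < ∞) (hpos : 0 < volume Ω) :
    nu β Ω 1 < ∞ := by
  have hone : ContDiff ℝ 1 (fun _ : ℂ => (1:ℝ)) := contDiff_const
  have hm : nsq (volume.restrict Ω) (fun _ : ℂ => (1:ℝ)) ≠ 0 := by
    simpa [nsq] using hpos.ne'
  obtain ⟨h1, h2, h3, -⟩ := T_mem_H1 hb hfin _ hone
  refine (nu_one_le (β := β) hb hfin _ hone hm).trans_lt ?_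
  rw [rayleigh]
  refine ENNReal.div_lt_top ?_ hm
  exact ENNReal.add_ne_top.2 ⟨(nsq_lt_top h2).ne, ENNReal.mul_ne_top ENNReal.ofReal_ne_top (nsq_lt_top h3).ne⟩

/-- For every area `A`, no `α ∈ (0,1)` makes the disk a maximiser of the ratio of the first two
Robin eigenvalues; the ratio is unbounded, even among star-shaped Lipschitz domains of area `A`. -/
theorem result (A : ℝ) (hA : 0 < A) :
    {α : ℝ | α ∈ Ioo (0:ℝ) 1 ∧ ∀ Ω : Set ℂ, IsLipschitzDomain Ω → volume Ω = ENNReal.ofReal A →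
        ratio α Ω ≤ ratio α (disk A)} = ∅ ∧
    ∀ α ∈ Ioo (0:ℝ) 1,
      (0 < nu (α / (1 - α)) (disk A) 1 ∧ nu (α / (1 - α)) (disk A) 1 < ∞ ∧
        nu (α / (1 - α)) (disk A) 2 < ∞) ∧
      ∀ M : ℝ, ∃ Ω : Set ℂ, IsLipschitzDomain Ω ∧ (∃ p ∈ Ω, StarConvex ℝ p Ω) ∧
        volume Ω = ENNReal.ofReal A ∧ 0 < nu (α / (1 - α)) Ω 1 ∧ nu (α / (1 - α)) Ω 1 < ∞ ∧
        nu (α / (1 - α)) Ω 2 < ∞ ∧ M < ratio α Ω := by
  have main : ∀ α ∈ Ioo (0:ℝ) 1, ∀ M : ℝ, ∃ Ω : Set ℂ, IsLipschitzDomain Ω ∧ (∃ p ∈ Ω, StarConvex ℝ p Ω) ∧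
        volume Ω = ENNReal.ofReal A ∧ 0 < nu (α / (1 - α)) Ω 1 ∧ nu (α / (1 - α)) Ω 1 < ∞ ∧
        nu (α / (1 - α)) Ω 2 < ∞ ∧ M < ratio α Ω := by
    intro α hα M
    set β := α / (1 - α) with hβdef
    have hβ : 0 < β := div_pos hα.1 (by linarith [hα.2])
    obtain ⟨C, hC, hup⟩ := flag_nu_one_le
    set M' := max M 1 with hM'
    have hM1 : 1 ≤ M' := le_max_right _ _
    have hMM : M ≤ M' := le_max_left _ _
    -- the side of the square
    obtain ⟨l, hl, hlA, hlM⟩ : ∃ l : ℝ, 0 < l ∧ l ^ 2 < A ∧ M' < 1 / (64 * β * l) := by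
      have hsq : 0 < √A := Real.sqrt_pos.2 hA
      refine ⟨min (√A / 2) (1 / (128 * β * M')), by positivity, ?_, ?_⟩
      · calc (min (√A / 2) (1 / (128 * β * M'))) ^ 2 ≤ (√A / 2) ^ 2 := by
              gcongr; exact min_le_left _ _
          _ = A / 4 := by rw [div_pow, Real.sq_sqrt hA.le]; norm_num
          _ < A := by linarith
      · have h1 : min (√A / 2) (1 / (128 * β * M')) ≤ 1 / (128 * β * M') := min_le_right _ _
        have h0 : 0 < min (√A / 2) (1 / (128 * β * M')) := by positivity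
        rw [lt_div_iff₀ (by positivity)]
        have h2 : M' * (64 * β * min (√A / 2) (1 / (128 * β * M'))) ≤
            M' * (64 * β * (1 / (128 * β * M'))) := by gcongr
        have h3 : M' * (64 * β * (1 / (128 * β * M'))) = 1 / 2 := by field_simp; norm_num
        linarith
    -- the width of the tail
    have hAl : 0 < A - l ^ 2 := by linarith
    obtain ⟨w, hw, hwl, hwβ, hwC, hwA⟩ : ∃ w : ℝ, 0 < w ∧ w < l ∧ w ≤ 2 * l ^ 2 * β ∧
        C * w / l ≤ 8 * β * l ∧ w * l < A - l ^ 2 := by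
      refine ⟨min (l / 2) (min (2 * l ^ 2 * β) (min (8 * β * l ^ 2 / C) ((A - l ^ 2) / (2 * l)))),
        by positivity, ?_, ?_, ?_, ?_⟩
      · exact (min_le_left _ _).trans_lt (by linarith)
      · exact (min_le_right _ _).trans (min_le_left _ _)
      · have h1 : min (l / 2) (min (2 * l ^ 2 * β) (min (8 * β * l ^ 2 / C) ((A - l ^ 2) / (2 * l)))) ≤
            8 * β * l ^ 2 / C := (min_le_right _ _).trans ((min_le_right _ _).trans (min_le_left _ _))
        rw [le_div_iff₀ hC] at h1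
        rw [div_le_iff₀ hl]
        nlinarith
      · have h1 : min (l / 2) (min (2 * l ^ 2 * β) (min (8 * β * l ^ 2 / C) ((A - l ^ 2) / (2 * l)))) ≤
            (A - l ^ 2) / (2 * l) := (min_le_right _ _).trans ((min_le_right _ _).trans (min_le_right _ _))
        rw [le_div_iff₀ (by positivity)] at h1
        linarith
    set L := (A - l ^ 2) / w with hLdef
    have hlL : l < L := by rw [hLdef, lt_div_iff₀ hw]; linarith
    have hL : 0 < L := hl.trans hlL
    have hLw : w * L = A - l ^ 2 := by rw [hLdef]; field_simp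
    have hvol : volume (flag l w L) = ENNReal.ofReal A := by
      rw [vol_flag hw hwl hL, hLw]; congr 1; ring
    have hb := flag_ball hw hwl hL
    have hne : (flag l w L).Nonempty := (flag_star hw hwl hL).imp fun p hp => hp.1
    have h1 := flag_nu_one_pos hβ hw hwl hL
    have h2 := nu_one_lt_top (β := β) hb (frontier_fin hw hwl hL) (by rw [hvol]; exact ENNReal.ofReal_pos.2 hA)
    have h3 := nu_two_lt_top hβ.le hb (frontier_fin hw hwl hL) (flag_open l w L) hne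
    refine ⟨flag l w L, ⟨flag_open l w L, Metric.isBounded_closedBall.subset hb, flag_lipschitz hw hwl hL⟩,
      flag_star hw hwl hL, hvol, h1, h2, h3, ?_⟩
    have h4 := hup β hβ l w L hw hwl hlL
    have h5 := flag_nu_two_ge hβ hw hwl hL hwβ
    have e1 : (nu β (flag l w L) 1).toReal ≤ 16 * β / l := by
      refine ENNReal.toReal_le_of_le_ofReal (by positivity) (h4.trans (ENNReal.ofReal_le_ofReal ?_))
      rw [div_le_div_iff₀ (by positivity) hl]
      nlinarith [mul_le_mul_of_nonneg_right hwC hl.le]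
    have e2 : 1 / (4 * l ^ 2) ≤ (nu β (flag l w L) 2).toReal := by
      rwa [ENNReal.ofReal_le_iff_le_toReal h3.ne] at h5
    have e3 : 0 < (nu β (flag l w L) 1).toReal := ENNReal.toReal_pos h1.ne' h2.ne
    have e4 : 1 / (64 * β * l) ≤ ratio α (flag l w L) := by
      rw [ratio, ← hβdef]
      calc 1 / (64 * β * l) = (1 / (4 * l ^ 2)) / (16 * β / l) := by field_simp; norm_num
        _ ≤ _ := by gcongr
    linarith
  refine ⟨?_, fun α hα => ⟨?_, main α hα⟩⟩
  swap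
  · have hβ : 0 < α / (1 - α) := div_pos hα.1 (by linarith [hα.2])
    have hR : 0 < √(A / Real.pi) := Real.sqrt_pos.2 (div_pos hA Real.pi_pos)
    have hb : disk A ⊆ Metric.closedBall (0:ℂ) (√(A / Real.pi)) := Metric.ball_subset_closedBall
    refine ⟨disk_nu_one_pos hβ hR, nu_one_lt_top hb (sphere_fin _ hR) (Metric.measure_ball_pos _ _ hR),
      nu_two_lt_top hβ.le hb (sphere_fin _ hR) Metric.isOpen_ball ⟨0, Metric.mem_ball_self hR⟩⟩
  rw [Set.eq_empty_iff_forall_notMem]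
  rintro α ⟨hα, h⟩
  obtain ⟨Ω, hΩ, -, hvol, -, -, -, hM⟩ := main α hα (ratio α (disk A))
  exact absurd (h Ω hΩ hvol) (not_le.2 hM)

end Pool.Agent.Results.MP_5dad96_an.NoAlpha
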